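import Pool.Agent.MP_7b45f6_mp.H11.Defs

set_option autoImplicit false

namespace Pool.Agent.MP_7b45f6_mp.H11

open Finset

def dirs : Finset P := {(1,0,0),(-1,0,0),(0,1,0),(0,-1,0),(0,0,1),(0,0,-1)}
def D4 : Finset P := {(0,1,0),(0,-1,0),(0,0,1),(0,0,-1)}
def rot (e : P) : P := (e.1, -e.2.2, e.2.1)
def dot (a b : P) : ℤ := a.1 * b.1 + a.2.1 * b.2.1 + a.2.2 * b.2.2

theorem card_dirs : dirs.card = 6 := by decide
theorem D4_sub : ∀ e ∈ D4, e ∈ dirs := by decide
theorem D4_fst : ∀ e ∈ D4, e.1 = 0 := by decide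
theorem mem_D4 : ∀ e ∈ dirs, e.1 = 0 → e ∈ D4 := by decide
theorem zero_D4 : (0 : P) ∉ D4 := by decide
theorem zero_dirs : (0 : P) ∉ dirs := by decide
theorem neg_dirs : ∀ e ∈ dirs, -e ∈ dirs := by decide
theorem neg_D4 : ∀ e ∈ D4, -e ∈ D4 := by decide
theorem rot_D4 : ∀ e ∈ D4, rot e ∈ D4 := by decide
theorem D4_cases : ∀ e ∈ D4, ∀ h ∈ D4, h = e ∨ h = -e ∨ h = rot e ∨ h = -rot e := by decide
theorem D4_perp : ∀ e ∈ D4, ∀ g ∈ D4, dot e g = 0 → ∀ h ∈ D4, h = e ∨ h = -e ∨ h = g ∨ h = -g := by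
  decide
theorem dot_self : ∀ e ∈ dirs, dot e e = 1 := by decide
theorem dot_rot : ∀ e ∈ D4, dot e (rot e) = 0 := by decide
theorem rot_inj : ∀ e ∈ D4, ∀ g ∈ D4, rot e = rot g → e = g := by decide
theorem perp_of : ∀ e ∈ D4, ∀ g ∈ D4, g ≠ e → g ≠ -e → dot e g = 0 := by decide
theorem perp_rot : ∀ e ∈ D4, ∀ g ∈ D4, dot e g = 0 → g = rot e ∨ g = -rot e := by decide
theorem x_cases : ∀ e ∈ dirs, e ∉ D4 → e = (1,0,0) ∨ e = (-1,0,0) := by decide

theorem dot_comm (a b : P) : dot a b = dot b a := by unfold dot; ring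
theorem dot_add (e a b : P) : dot e (a + b) = dot e a + dot e b := by
  simp only [dot, Prod.fst_add, Prod.snd_add]; ring
theorem dot_sub (e a b : P) : dot e (a - b) = dot e a - dot e b := by
  simp only [dot, Prod.fst_sub, Prod.snd_sub]; ring
theorem dot_neg (e a : P) : dot e (-a) = -dot e a := by
  simp only [dot, Prod.fst_neg, Prod.snd_neg]; ring
theorem nsmul_mk (k : ℕ) (a : P) : k • a = ((k : ℤ) * a.1, (k : ℤ) * a.2.1, (k : ℤ) * a.2.2) := by
  ext <;> simp
theorem dot_nsmul (e a : P) (k : ℕ) : dot e (k • a) = k * dot e a := by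
  simp only [dot, nsmul_mk]; ring
theorem fst_nsmul (a : P) (k : ℕ) : (k • a).1 = k * a.1 := by
  simp only [nsmul_mk]

theorem adj_iff (p q : P) : Adj p q ↔ q - p ∈ dirs := by
  obtain ⟨a, b, c⟩ := p
  obtain ⟨a', b', c'⟩ := q
  simp only [Adj, dirs, mem_insert, mem_singleton, Prod.mk_sub_mk, Prod.mk.injEq]
  constructor
  · intro h
    rcases abs_cases (a - a') with h1 | h1 <;> rcases abs_cases (b - b') with h2 | h2 <;>
      rcases abs_cases (c - c') with h3 | h3 <;> omega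
  · intro h
    rcases abs_cases (a - a') with h1 | h1 <;> rcases abs_cases (b - b') with h2 | h2 <;>
      rcases abs_cases (c - c') with h3 | h3 <;> omega

/-- In a plane x = c a point is fixed by two perpendicular coordinates. -/
theorem plane_eq {e g : P} (he : e ∈ D4) (hg : g ∈ D4) (h0 : dot e g = 0) {p q : P}
    (h1 : p.1 = q.1) (h2 : dot e p = dot e q) (h3 : dot g q ≤ dot g p) :
    ∃ k : ℕ, p = q + k • g ∧ (k : ℤ) = dot g p - dot g q := by
  refine ⟨(dot g p - dot g q).toNat, ?_, by omega⟩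
  obtain ⟨a, b, c⟩ := p
  obtain ⟨a', b', c'⟩ := q
  have hk : (((dot g (a, b, c) - dot g (a', b', c')).toNat : ℕ) : ℤ)
      = dot g (a, b, c) - dot g (a', b', c') := by omega
  simp only [D4, mem_insert, mem_singleton] at he hg
  rw [nsmul_mk, hk]
  simp only [Prod.mk_add_mk, Prod.mk.injEq]
  rcases he with rfl | rfl | rfl | rfl <;> rcases hg with rfl | rfl | rfl | rfl <;>
    simp only [dot] at h0 h1 h2 ⊢ <;> omega

theorem card_le_of_rel {α β : Type*} (A : Finset α) (B : Finset β) (R : α → β → Prop)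
    (h1 : ∀ a ∈ A, ∃ b ∈ B, R a b)
    (h2 : ∀ a ∈ A, ∀ a' ∈ A, ∀ b, R a b → R a' b → a = a') : A.card ≤ B.card := by
  classical
  rcases A.eq_empty_or_nonempty with rfl | ⟨a0, ha0⟩
  · simp
  have : Nonempty β := ⟨(h1 a0 ha0).choose⟩
  choose! f' hf' using h1
  refine card_le_card_of_injOn f' (fun a ha => (hf' a ha).1) ?_
  intro a ha a' ha' h
  exact h2 a ha a' ha' (f' a) (hf' a ha).2 (h ▸ (hf' a' ha').2)

/-- Exposed faces of a finite set of sites. -/
def faces (V : Finset P) : Finset (P × P) := (V ×ˢ dirs).filter fun φ => φ.1 + φ.2 ∉ V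

theorem mem_faces {V : Finset P} {φ : P × P} :
    φ ∈ faces V ↔ φ.1 ∈ V ∧ φ.2 ∈ dirs ∧ φ.1 + φ.2 ∉ V := by
  simp [faces, and_assoc]

theorem exists_face (V : Finset P) {p f : P} (hp : p ∈ V) (hf : f ∈ dirs) :
    ∃ k : ℕ, (p + k • f, f) ∈ faces V := by
  by_contra h
  push Not at h
  have hall : ∀ k : ℕ, p + k • f ∈ V := by
    intro k
    induction k with
    | zero => simpa using hp
    | succ k ih =>
      by_contra hk
      apply h k
      rw [mem_faces]
      refine ⟨ih, hf, ?_⟩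
      rw [succ_nsmul, ← add_assoc] at hk
      exact hk
  have hinj : Function.Injective fun k : ℕ => p + k • f := by
    intro a b hab
    have := congrArg (dot f) hab
    simp only [dot_add, dot_nsmul, dot_self f hf] at this
    omega
  exact Set.infinite_of_injective_forall_mem hinj hall V.finite_toSet

end Pool.Agent.MP_7b45f6_mp.H11
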