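import Pool.Agent.MP_7b45f6_mp.H11.Walk

set_option autoImplicit false

namespace Pool.Agent.MP_7b45f6_mp.H11

open Finset Classical

noncomputable def Vs (N : ℕ) (w : ℕ → P) : Finset P := (range (N + 1)).image w
noncomputable def St (N : ℕ) (w : ℕ → P) : Finset ℕ := (range (N + 1)).filter fun t => pd w t ∉ D4
noncomputable def FR (N : ℕ) (w : ℕ → P) : Finset ℕ :=
  (range (N + 1)).filter fun u => pd w u ∈ D4 ∧ pd w (rs w u) ∉ D4
noncomputable def BD (N : ℕ) (w : ℕ → P) : Finset ℕ :=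
  (range (N + 1)).filter fun u => pd w u ∈ D4 ∧ pd w (rs w u) ∈ D4 ∧
    ∃ i < rs w u, ∃ k, rs w u ≤ k ∧ k ≤ u ∧ w i = w k + pd w (rs w u)
noncomputable def Mg (N : ℕ) (w : ℕ → P) : Finset ℕ := St N w ∪ FR N w ∪ BD N w

variable {N : ℕ} {w : ℕ → P}

theorem mem_Vs {p : P} : p ∈ Vs N w ↔ ∃ i ≤ N, w i = p := by
  simp [Vs]
theorem w_mem {i : ℕ} (h : i ≤ N) : w i ∈ Vs N w := mem_Vs.2 ⟨i, h, rfl⟩
theorem mem_St {t : ℕ} : t ∈ St N w ↔ t ≤ N ∧ pd w t ∉ D4 := by simp [St]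
theorem mem_FR {u : ℕ} : u ∈ FR N w ↔ u ≤ N ∧ pd w u ∈ D4 ∧ pd w (rs w u) ∉ D4 := by
  simp only [FR, mem_filter, mem_range, Nat.lt_succ_iff]
theorem mem_BD {u : ℕ} : u ∈ BD N w ↔ u ≤ N ∧ pd w u ∈ D4 ∧ pd w (rs w u) ∈ D4 ∧
    ∃ i < rs w u, ∃ k, rs w u ≤ k ∧ k ≤ u ∧ w i = w k + pd w (rs w u) := by
  simp only [BD, mem_filter, mem_range, Nat.lt_succ_iff]

/-- Pairs (piece start, object) in one plane. -/
noncomputable def pairs (N : ℕ) (w : ℕ → P) {β : Type*} (B : Finset β) (c : β → ℤ) :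
    Finset (ℕ × β) := (St N w ×ˢ B).filter fun x => (w x.1).1 = c x.2

theorem mem_pairs {β : Type*} {B : Finset β} {c : β → ℤ} {x : ℕ × β} :
    x ∈ pairs N w B c ↔ x.1 ∈ St N w ∧ x.2 ∈ B ∧ (w x.1).1 = c x.2 := by
  simp [pairs, and_assoc]

theorem card_pairs {M : ℕ} (hM : ∀ c, ((St N w).filter fun t => (w t).1 = c).card ≤ M)
    {β : Type*} (B : Finset β) (c : β → ℤ) : (pairs N w B c).card ≤ M * B.card := by
  refine card_le_mul_card_image_of_maps_to (f := Prod.snd) (fun x hx => (mem_pairs.1 hx).2.1) M ?_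
  intro b _
  refine le_trans ?_ (hM (c b))
  refine card_le_card_of_injOn Prod.fst ?_ ?_
  · intro x hx
    simp only [coe_filter, Set.mem_ofPred_eq, mem_pairs] at hx ⊢
    exact ⟨hx.1.1, hx.2 ▸ hx.1.2.2⟩
  · intro x hx y hy h
    simp only [coe_filter, Set.mem_ofPred_eq] at hx hy
    exact Prod.ext h (hx.2.trans hy.2.symm)

noncomputable def PF (N : ℕ) (w : ℕ → P) : Finset (ℕ × (P × P)) :=
  pairs N w (faces (Vs N w)) fun φ => φ.1.1

theorem fst_ray {p f : P} (hf : f ∈ D4) (k : ℕ) : (p + k • f).1 = p.1 := by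
  rw [Prod.fst_add, fst_nsmul, D4_fst f hf]; simp

theorem card_St : (St N w).card ≤ (PF N w).card := by
  refine card_le_of_rel _ _ (fun t x => x.1 = t) ?_ (fun a _ a' _ b h h' => h.symm.trans h')
  intro t ht
  have hf : ((0, 1, 0) : P) ∈ D4 := by decide
  obtain ⟨k, hk⟩ := exists_face (Vs N w) (w_mem (mem_St.1 ht).1) (D4_sub _ hf)
  exact ⟨(t, _), mem_pairs.2 ⟨ht, hk, (fst_ray hf k).symm⟩, rfl⟩

/-- Two times in one run with the same coordinate along the run are equal. -/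
theorem run_inj {u v : ℕ} (hu : pd w u ∈ D4) (h1 : rs w u = rs w v) (h2 : pd w u = pd w v)
    (h3 : dot (pd w u) (w u) = dot (pd w u) (w v)) : u = v := by
  have a1 := w_run (rs_le w u) le_rfl
  have a2 := w_run (rs_le w v) le_rfl
  rw [← h1, ← h2] at a2
  have b1 := congrArg (dot (pd w u)) a1
  have b2 := congrArg (dot (pd w u)) a2
  rw [dot_add, dot_nsmul, dot_self _ (D4_sub _ hu)] at b1 b2
  have c1 := rs_le w u
  have c2 := rs_le w v
  omega

theorem dot_ray {e p : P} (he : e ∈ D4) (k : ℕ) : dot e (p + k • rot e) = dot e p := by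
  rw [dot_add, dot_nsmul, dot_rot e he]; simp

theorem fst_run {u : ℕ} (hu : pd w u ∈ D4) {j : ℕ} (h1 : rs w u ≤ j) (h2 : j ≤ u) :
    (w j).1 = (w (rs w u)).1 := by
  rw [w_run h1 h2, fst_ray hu]

theorem card_FR : (FR N w).card ≤ (PF N w).card := by
  refine card_le_of_rel _ _
    (fun u x => x.1 = rs w u ∧ ∃ k : ℕ, x.2 = (w u + k • rot (pd w u), rot (pd w u))) ?_ ?_
  · intro u hu
    obtain ⟨h1, h2, h3⟩ := mem_FR.1 hu
    obtain ⟨k, hk⟩ := exists_face (Vs N w) (w_mem h1) (D4_sub _ (rot_D4 _ h2))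
    refine ⟨(rs w u, _), mem_pairs.2 ⟨mem_St.2 ⟨(rs_le w u).trans h1, h3⟩, hk, ?_⟩, rfl, k, rfl⟩
    simp only
    rw [fst_ray (rot_D4 _ h2), fst_run h2 (rs_le w u) le_rfl]
  · rintro u hu v hv x ⟨a1, k, a2⟩ ⟨b1, l, b2⟩
    obtain ⟨-, h2, -⟩ := mem_FR.1 hu
    obtain ⟨-, h2', -⟩ := mem_FR.1 hv
    have h := a2.symm.trans b2
    have he : pd w u = pd w v := rot_inj _ h2 _ h2' (congrArg Prod.snd h)
    have hp := congrArg (fun y : P × P => dot (pd w u) y.1) h
    simp only [← he, dot_ray h2] at hp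
    exact run_inj h2 (a1.symm.trans b1) he hp

theorem ps_run {u j : ℕ} (hu : pd w u ∈ D4) (h1 : rs w u ≤ j) (h2 : j ≤ u) : ps w u = ps w j :=
  ps_eq h2 fun i i1 i2 => by rw [pd_run (u := u) (by omega) i2]; exact hu

theorem Walk.BD_aux (hw : Walk N w) {u v : ℕ} (hu : u ∈ BD N w) (hv : v ∈ BD N w)
    (he : pd w u = pd w v) (hlt : rs w u < rs w v) (hp : ps w u = ps w v)
    {i k i' k' : ℕ} (a1 : i < rs w u) (a2 : rs w u ≤ k) (a3 : k ≤ u)
    (a4 : w i = w k + pd w (rs w u)) (b1 : i' < rs w v) (b2 : rs w v ≤ k') (b3 : k' ≤ v)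
    (b4 : w i' = w k' + pd w (rs w v)) (hi : ps w i = ps w i') : False := by
  obtain ⟨u1, u2, u3, -⟩ := mem_BD.1 hu
  obtain ⟨v1, v2, v3, -⟩ := mem_BD.1 hv
  set s := rs w v with hs
  have hsv : s < v := rs_lt v2
  have hus : u < s := by
    by_contra hc
    exact rs_ne v2 (by rw [← hs, pd_run hlt (by omega), he])
  have e1 : pd w (s + 1) = pd w v := pd_run (by omega) (by omega)
  have h0 : dot (pd w (s + 1)) (pd w s) = 0 := by rw [e1]; exact hw.perp v1 v2 v3
  have he' : pd w (s + 1) ∈ D4 := e1 ▸ v2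
  have h0' : dot (pd w s) (pd w (s + 1)) = 0 := by rw [dot_comm]; exact h0
  have gg := dot_self _ (D4_sub _ v3)
  have ee := dot_self _ (D4_sub _ he')
  have hk' : s < k' := by
    rcases b2.lt_or_eq with h | h
    · exact h
    · exact absurd (by rw [b4, ← h, one_nsmul]) (hw.pru s (by omega) i' b1 1)
  have q1 : Quad w s (pd w (s + 1)) (pd w s) (w i') := by
    have hk := w_run b2 b3
    rw [← hs, ← e1] at hk
    refine ⟨?_, ?_, ?_⟩
    · rw [b4, Prod.fst_add, D4_fst _ v3, add_zero, hk, fst_ray he']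
    · rw [b4, hk, dot_add, dot_add, dot_nsmul, h0, ee]; omega
    · rw [b4, hk, dot_add, dot_add, dot_nsmul, h0', gg]; omega
  have q2 := hw.quad_piece (by omega) he' v3 h0 b1 (by omega) hi.symm q1
  have q3 : Quad w s (pd w (s + 1)) (pd w s) (w k) :=
    hw.quad_step (by omega) he' v3 h0 (by omega) (neg_D4 _ u3) (by rw [a4]; simp) q2
  have hk : ps w k = ps w (s - 1) := by
    rw [← ps_run u2 a2 a3, hp, ps_run v2 le_rfl hsv.le]
    refine ps_eq (by omega) fun j j1 j2 => ?_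
    obtain rfl : j = s := by omega
    exact v3
  have q4 := hw.quad_piece (by omega) he' v3 h0 (by omega) (b := s - 1) (by omega) hk q3
  have := q4.2.2
  rw [w_pred w s, dot_sub, gg] at this
  omega

theorem Walk.card_BD (hw : Walk N w) :
    (BD N w).card ≤ (pairs N w (PF N w) fun x => x.2.1.1).card := by
  refine card_le_of_rel _ _
    (fun u x => x.1 = ps w u ∧ (∃ i < rs w u, ∃ k, rs w u ≤ k ∧ k ≤ u ∧
      w i = w k + pd w (rs w u) ∧ x.2.1 = ps w i) ∧
      ∃ k : ℕ, x.2.2 = (w u + k • rot (pd w u), rot (pd w u))) ?_ ?_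
  · intro u hu
    obtain ⟨h1, h2, h3, i, a1, k, a2, a3, a4⟩ := mem_BD.1 hu
    obtain ⟨l, hl⟩ := exists_face (Vs N w) (w_mem h1) (D4_sub _ (rot_D4 _ h2))
    have := rs_le w u
    refine ⟨(ps w u, ps w i, _), mem_pairs.2 ⟨mem_St.2 ⟨(ps_le w u).trans h1, ps_spec w u⟩,
      mem_pairs.2 ⟨mem_St.2 ⟨(ps_le w i).trans (by omega), ps_spec w i⟩, hl, ?_⟩, ?_⟩, rfl,
      ⟨i, a1, k, a2, a3, a4, rfl⟩, l, rfl⟩
    · simp only
      rw [fst_ray (rot_D4 _ h2), ← fst_ps, a4, Prod.fst_add, D4_fst _ h3, add_zero,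
        fst_run h2 a2 a3, fst_run h2 (rs_le w u) le_rfl]
    · simp only
      rw [fst_ray (rot_D4 _ h2), ← fst_ps]
  · rintro u hu v hv x ⟨a0, ⟨i, a1, k, a2, a3, a4, a5⟩, l, a6⟩ ⟨b0, ⟨i', b1, k', b2, b3, b4, b5⟩, l', b6⟩
    have h2 := (mem_BD.1 hu).2.1
    have h2' := (mem_BD.1 hv).2.1
    have h := a6.symm.trans b6
    have he : pd w u = pd w v := rot_inj _ h2 _ h2' (congrArg Prod.snd h)
    have hp := congrArg (fun y : P × P => dot (pd w u) y.1) h
    simp only [← he, dot_ray h2] at hp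
    rcases lt_trichotomy (rs w u) (rs w v) with hlt | heq | hlt
    · exact (hw.BD_aux hu hv he hlt (a0.symm.trans b0) a1 a2 a3 a4 b1 b2 b3 b4
        (a5.symm.trans b5)).elim
    · exact run_inj h2 heq he hp
    · exact (hw.BD_aux hv hu he.symm hlt (b0.symm.trans a0) b1 b2 b3 b4 a1 a2 a3 a4
        (b5.symm.trans a5)).elim

theorem Walk.card_Mg (hw : Walk N w) {M : ℕ} (h1 : 1 ≤ M)
    (hM : ∀ c, ((St N w).filter fun t => (w t).1 = c).card ≤ M) :
    (PF N w).card ≤ M ^ 2 * (faces (Vs N w)).card ∧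
      (Mg N w).card ≤ 3 * (M ^ 2 * (faces (Vs N w)).card) := by
  have a1 : (PF N w).card ≤ M * (faces (Vs N w)).card := card_pairs hM _ _
  have a2 := card_pairs hM (PF N w) fun x => x.2.1.1
  have a3 := hw.card_BD
  have a4 := card_St (N := N) (w := w)
  have a5 := card_FR (N := N) (w := w)
  have a6 : (Mg N w).card ≤ (St N w).card + (FR N w).card + (BD N w).card :=
    (card_union_le _ _).trans (Nat.add_le_add_right (card_union_le _ _) _)
  have a7 : M * (faces (Vs N w)).card ≤ M ^ 2 * (faces (Vs N w)).card :=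
    Nat.mul_le_mul_right _ (by nlinarith)
  have a8 : M * (PF N w).card ≤ M ^ 2 * (faces (Vs N w)).card := by
    rw [pow_two, mul_assoc]; exact Nat.mul_le_mul_left _ a1
  omega

/-- An earlier neighbour across the run lies before the start of the run. -/
theorem before_run {u i k : ℕ} {g : P} (hg : g ∈ D4)
    (h0 : dot (pd w u) g = 0) (hi : i ≤ u) (k1 : rs w u ≤ k) (k2 : k ≤ u) (h : w i = w k + g) :
    i < rs w u := by
  by_contra hc
  have a1 := congrArg (dot g) (w_run (not_lt.1 hc) hi)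
  have a2 := congrArg (dot g) (w_run k1 k2)
  have a3 := congrArg (dot g) h
  rw [dot_add, dot_nsmul, dot_comm g (pd w u), h0] at a1 a2
  rw [dot_add, dot_self g (D4_sub g hg)] at a3
  omega

/-- A site that closes a gap belongs to a start, a first run or a bad run. -/
theorem Walk.merge (hw : Walk N w) {u : ℕ} (hu : u ≤ N) {f : P} (hf : f ∈ D4) {a b : ℕ}
    (ha : a < u) (hb : b < u) (h1 : w a = w u + f) (h2 : w b = w u - f) : u ∈ Mg N w := by
  simp only [Mg, mem_union]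
  by_cases he : pd w u ∈ D4
  swap
  · exact Or.inl (Or.inl (mem_St.2 ⟨hu, he⟩))
  by_cases hg : pd w (rs w u) ∈ D4
  swap
  · exact Or.inl (Or.inr (mem_FR.2 ⟨hu, he, hg⟩))
  right
  have h0 : dot (pd w u) f = 0 := by
    refine perp_of _ he _ hf ?_ ?_
    · intro h
      exact hw.pru u hu a ha 1 (by rw [h1, h, one_nsmul])
    · intro h
      exact hw.pru u hu b hb 1 (by rw [h2, h, one_nsmul, sub_neg_eq_add])
  have hp := hw.perp hu he hg
  have hgf : pd w (rs w u) = f ∨ pd w (rs w u) = -f := by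
    rcases D4_perp _ he _ hf h0 _ hg with h | h | h | h
    · rw [h, dot_self _ (D4_sub _ he)] at hp; omega
    · rw [h, dot_neg, dot_self _ (D4_sub _ he)] at hp; omega
    · exact Or.inl h
    · exact Or.inr h
  refine mem_BD.2 ⟨hu, he, hg, ?_⟩
  rcases hgf with h | h
  · have h3 : w a = w u + pd w (rs w u) := by rw [h, h1]
    exact ⟨a, before_run hg hp ha.le (rs_le w u) le_rfl h3, u, rs_le w u, le_rfl, h3⟩
  · have h3 : w b = w u + pd w (rs w u) := by rw [h, h2, sub_eq_add_neg]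
    exact ⟨b, before_run hg hp hb.le (rs_le w u) le_rfl h3, u, rs_le w u, le_rfl, h3⟩

end Pool.Agent.MP_7b45f6_mp.H11
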