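import Pool.Agent.MP_7b45f6_mp.H11.Count

set_option autoImplicit false

namespace Pool.Agent.MP_7b45f6_mp.H11

open Finset Classical

/-- The site `p` has a neighbour across the direction `e` that was visited up to time `t`. -/
def Sup (w : ℕ → P) (t : ℕ) (e p : P) : Prop := ∃ i ≤ t, w i = p + rot e ∨ w i = p - rot e

noncomputable def Un (N : ℕ) (w : ℕ → P) : Finset ℕ :=
  (range (N + 1)).filter fun u => pd w u ∈ D4 ∧ ¬ Sup w (u - 1) (pd w u) (w u)

noncomputable def Turn (N : ℕ) (w : ℕ → P) : Finset ℕ :=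
  (range N).filter fun t => pd w (t + 1) ≠ pd w t

/-- The number of consecutive supported sites ahead of the walker. -/
noncomputable def dd (w : ℕ → P) (t : ℕ) : ℕ :=
  if pd w t ∈ D4 then sInf {k | ¬ Sup w t (pd w t) (w t + (k + 1) • pd w t)} else 0

variable {N : ℕ} {w : ℕ → P}

theorem mem_Un {u : ℕ} :
    u ∈ Un N w ↔ u ≤ N ∧ pd w u ∈ D4 ∧ ¬ Sup w (u - 1) (pd w u) (w u) := by
  simp only [Un, mem_filter, mem_range, Nat.lt_succ_iff]

theorem mem_Turn {t : ℕ} : t ∈ Turn N w ↔ t < N ∧ pd w (t + 1) ≠ pd w t := by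
  simp only [Turn, mem_filter, mem_range]

theorem climb (f : P) (hf : f ∈ dirs) : ∀ n a, a ≤ N → N - a = n →
    ∃ k : ℕ, ∃ c ≤ N, w c = w a + k • f ∧
      (∀ j < k, ∃ x y, x < y ∧ y ≤ N ∧ w x = w a + j • f ∧ w y = w a + (j + 1) • f) ∧
      (w c + f ∉ Vs N w ∨ ∃ x < c, w x = w c + f) := by
  intro n
  induction n using Nat.strong_induction_on with
  | _ n ih =>
    intro a ha hn
    by_cases h : w a + f ∈ Vs N w
    · obtain ⟨b, hb, hb'⟩ := mem_Vs.1 h
      rcases lt_trichotomy b a with h1 | h1 | h1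
      · exact ⟨0, a, ha, by simp, by simp, Or.inr ⟨b, h1, hb'⟩⟩
      · subst h1
        exact absurd (left_eq_add.1 hb' ▸ hf) zero_dirs
      · obtain ⟨k, c, hc, e1, e2, e3⟩ := ih (N - b) (by omega) b hb rfl
        refine ⟨k + 1, c, hc, by rw [e1, hb', succ_nsmul', add_assoc], fun j hj => ?_, e3⟩
        rcases j with _ | j
        · exact ⟨a, b, h1, hb, by simp, by simp [hb']⟩
        · obtain ⟨x, y, h2, h3, h4, h5⟩ := e2 j (by omega)
          exact ⟨x, y, h2, h3, by rw [h4, hb', succ_nsmul', add_assoc],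
            by rw [h5, hb', succ_nsmul' f (j + 1), add_assoc]⟩
    · exact ⟨0, a, ha, by simp, by simp, Or.inl h⟩

theorem Walk.card_Un (hw : Walk N w) :
    (Un N w).card ≤ (faces (Vs N w)).card + 6 * (Mg N w).card := by
  have hB : (faces (Vs N w) ∪ (Mg N w).image w ×ˢ dirs).card ≤
      (faces (Vs N w)).card + 6 * (Mg N w).card := by
    refine (card_union_le _ _).trans ?_
    rw [card_product, card_dirs]
    have := card_image_le (s := Mg N w) (f := w)
    omega
  refine le_trans (card_le_of_rel _ _ (fun u φ => φ.2 = rot (pd w u) ∧ ∃ k : ℕ,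
    φ.1 = w u + k • φ.2 ∧ ∀ j < k, ∃ x y, x < y ∧ y ≤ N ∧ w x = w u + j • φ.2 ∧
      w y = w u + (j + 1) • φ.2) ?_ ?_) hB
  · intro u hu
    obtain ⟨h1, h2, h3⟩ := mem_Un.1 hu
    have hf := rot_D4 _ h2
    obtain ⟨k, c, hc, e1, e2, e3⟩ := climb (w := w) _ (D4_sub _ hf) _ u h1 rfl
    refine ⟨(w c, rot (pd w u)), ?_, rfl, k, e1, e2⟩
    rcases e3 with e3 | ⟨x, hx, e3⟩
    · exact mem_union_left _ (mem_faces.2 ⟨w_mem hc, D4_sub _ hf, e3⟩)
    · refine mem_union_right _ (mem_product.2 ⟨mem_image_of_mem _ ?_, D4_sub _ hf⟩)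
      rcases k with _ | k
      · have : c = u := hw.inj _ hc _ h1 (by simpa using e1)
        subst this
        exact absurd ⟨x, by omega, Or.inl e3⟩ h3
      · obtain ⟨x', y, a1, a2, a3, a4⟩ := e2 k (by omega)
        have : y = c := hw.inj _ a2 _ hc (a4.trans e1.symm)
        subst this
        refine hw.merge hc hf hx a1 e3 ?_
        rw [a3, a4, succ_nsmul]; abel
  · have key : ∀ u ∈ Un N w, ∀ v ∈ Un N w, ∀ f : P, f = rot (pd w v) → ∀ k l : ℕ, l < k →
        w u + k • f = w v + l • f → (∀ j < k, ∃ x y, x < y ∧ y ≤ N ∧ w x = w u + j • f ∧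
          w y = w u + (j + 1) • f) → False := by
      intro u _ v hv f hf k l hlk h1 h2
      obtain ⟨v1, -, v3⟩ := mem_Un.1 hv
      obtain ⟨j, rfl⟩ : ∃ j, k = j + 1 + l := ⟨k - l - 1, by omega⟩
      obtain ⟨x, y, a1, a2, a3, a4⟩ := h2 j (by omega)
      have h3 : w u + (j + 1) • f = w v := by
        rw [add_nsmul, ← add_assoc] at h1
        exact add_right_cancel h1
      have : y = v := hw.inj _ a2 _ v1 (a4.trans h3)
      subst this
      refine v3 ⟨x, by omega, Or.inr ?_⟩
      rw [← hf, a3, ← h3, succ_nsmul]; abel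
    rintro u hu v hv φ ⟨a1, k, a2, a3⟩ ⟨b1, l, b2, b3⟩
    rcases lt_trichotomy l k with h | h | h
    · exact (key u hu v hv _ b1 k l h (a2.symm.trans b2) a3).elim
    · subst h
      exact hw.inj _ (mem_Un.1 hu).1 _ (mem_Un.1 hv).1 (add_right_cancel (a2.symm.trans b2))
    · exact (key v hv u hu _ a1 l k h (b2.symm.trans a2) b3).elim

/-- In a good run all earlier neighbours lie on the side from which the run was entered. -/
theorem Walk.good (hw : Walk N w) {u : ℕ} (hu : u ≤ N) (hM : u ∉ Mg N w) :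
    pd w u ∈ D4 ∧ pd w (rs w u) ∈ D4 ∧ dot (pd w u) (pd w (rs w u)) = 0 ∧
      ∀ i ≤ u, ∀ k, rs w u ≤ k → k ≤ u → w i ≠ w k + pd w (rs w u) := by
  simp only [Mg, mem_union, not_or, mem_St, mem_FR, mem_BD] at hM
  obtain ⟨⟨h1, h2⟩, h3⟩ := hM
  have he : pd w u ∈ D4 := by tauto
  have hg : pd w (rs w u) ∈ D4 := by tauto
  have hp := hw.perp hu he hg
  exact ⟨he, hg, hp, fun i hi k k1 k2 h =>
    h3 ⟨hu, he, hg, i, before_run hg hp hi k1 k2 h, k, k1, k2, h⟩⟩

theorem Walk.turn_sub (hw : Walk N w) {t : ℕ} (ht : t ∈ Turn N w) :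
    t ∈ Mg N w ∪ Un N w ∨ t + 1 ∈ Mg N w ∪ Un N w := by
  by_contra hc
  simp only [mem_union, not_or] at hc
  obtain ⟨⟨m1, u1⟩, m2, u2⟩ := hc
  obtain ⟨t1, t2⟩ := mem_Turn.1 ht
  obtain ⟨e1, g1, p1, q1⟩ := hw.good t1.le m1
  obtain ⟨e2, -, p2, q2⟩ := hw.good t1 m2
  have hr : rs w (t + 1) = t := rs_eq (by omega) t2.symm fun j j1 j2 => by
    obtain rfl : j = t + 1 := by omega
    rfl
  rw [hr] at p2 q2
  have p2' : dot (pd w t) (pd w (t + 1)) = 0 := by rw [dot_comm]; exact p2
  have s1 : Sup w (t - 1) (pd w t) (w t) := by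
    by_contra h; exact u1 (mem_Un.2 ⟨t1.le, e1, h⟩)
  have s2 : Sup w t (pd w (t + 1)) (w (t + 1)) := by
    by_contra h; exact u2 (mem_Un.2 ⟨t1, e2, h⟩)
  have t0 := pos_of_D4 e1
  obtain ⟨i, i1, i2⟩ := s2
  have i3 : w i = w (t + 1) - pd w t := by
    have := q2 i (by omega) (t + 1) (by omega) le_rfl
    rcases perp_rot _ e2 _ e1 p2 with h | h <;> rw [h] at this ⊢ <;> rcases i2 with i2 | i2
    · exact absurd i2 this
    · exact i2
    · rw [i2, sub_neg_eq_add]
    · exact absurd (by rw [i2, sub_eq_add_neg]) this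
  obtain ⟨j, j1, j2⟩ := s1
  have j3 : w j = w t - pd w (t + 1) := by
    have : w j ≠ w t + pd w (t + 1) := by
      rw [← w_succ w t]
      intro h
      have := hw.inj _ (by omega) _ t1 h
      omega
    rcases perp_rot _ e1 _ e2 p2' with h | h <;> rw [h] at this ⊢ <;> rcases j2 with j2 | j2
    · exact absurd j2 this
    · exact j2
    · rw [j2, sub_neg_eq_add]
    · exact absurd (by rw [j2, sub_eq_add_neg]) this
  have hlt := rs_lt e1
  rcases D4_perp _ e1 _ e2 p2' _ g1 with h | h | h | h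
  · rw [h, dot_self _ (D4_sub _ e1)] at p1; omega
  · rw [h, dot_neg, dot_self _ (D4_sub _ e1)] at p1; omega
  · refine q1 i i1 (t - 1) (by omega) (by omega) ?_
    rw [h, i3, w_pred w t, w_succ w t]; abel
  · refine q1 j (by omega) t (by omega) le_rfl ?_
    rw [h, j3, sub_eq_add_neg]

theorem Walk.card_Turn (hw : Walk N w) :
    (Turn N w).card ≤ 2 * ((Mg N w).card + (Un N w).card) := by
  have h1 : (Turn N w).card ≤ ((Mg N w ∪ Un N w) ×ˢ (univ : Finset Bool)).card := by
    refine card_le_of_rel _ _ (fun t x => x = (t, true) ∨ x = (t + 1, false)) ?_ ?_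
    · intro t ht
      rcases hw.turn_sub ht with h | h
      · exact ⟨(t, true), mem_product.2 ⟨h, mem_univ _⟩, Or.inl rfl⟩
      · exact ⟨(t + 1, false), mem_product.2 ⟨h, mem_univ _⟩, Or.inr rfl⟩
    · rintro a - b - x (rfl | rfl) (h | h) <;> simp at h <;> omega
  rw [card_product, card_univ, Fintype.card_bool] at h1
  have := card_union_le (Mg N w) (Un N w)
  omega

theorem sup_of_lt {t j : ℕ} (hj : j < dd w t) :
    pd w t ∈ D4 ∧ Sup w t (pd w t) (w t + (j + 1) • pd w t) := by
  unfold dd at hj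
  split_ifs at hj with h
  · exact ⟨h, not_not.1 (Nat.notMem_of_lt_sInf hj)⟩
  · omega

/-- Supported sites ahead of a turn stay empty unless a new piece starts among them. -/
theorem Walk.dead (hw : Walk N w) {t : ℕ} (ht : t ∈ Turn N w) : ∀ j < dd w t, ∀ u ≤ N,
    w u = w t + (j + 1) • pd w t → u ∈ St N w ∨ (u ∈ FR N w ∧ pd w u = pd w t) := by
  obtain ⟨t1, t2⟩ := mem_Turn.1 ht
  intro j
  induction j using Nat.strong_induction_on with
  | _ j ih =>
    intro hj u hu h
    obtain ⟨he, i, i1, i2⟩ := sup_of_lt hj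
    have ee := dot_self _ (D4_sub _ he)
    have er := dot_rot _ he
    have htu : t < u := by
      rcases lt_trichotomy t u with h1 | h1 | h1
      · exact h1
      · subst h1
        have := congrArg (dot (pd w t)) h
        rw [dot_add, dot_nsmul, ee] at this
        omega
      · exact absurd h (hw.pru t t1.le u h1 _)
    by_cases hD : pd w u ∈ D4
    swap
    · exact Or.inl (mem_St.2 ⟨hu, hD⟩)
    right
    have lat : ∀ g : P, dot (pd w t) g = 0 → pd w u = g →
        (w i = w u + g ∨ w i = w u - g) → False := by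
      intro g g0 hg h1
      rcases h1 with h1 | h1
      · exact hw.pru u hu i (by omega) 1 (by rw [h1, hg, one_nsmul])
      · have : i = u - 1 := hw.inj _ (by omega) _ (by omega) (by rw [h1, w_pred w u, hg])
        obtain rfl : i = t := by omega
        have := congrArg (dot (pd w i)) h1
        rw [h, dot_sub, dot_add, dot_nsmul, ee, g0] at this
        omega
    rw [← h] at i2
    rcases D4_cases _ he _ hD with hc | hc | hc | hc
    · refine ⟨mem_FR.2 ⟨hu, hD, ?_⟩, hc⟩
      have h1 : w (u - 1) = w t + j • pd w t := by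
        rw [w_pred w u, h, hc, succ_nsmul]; abel
      rcases j with _ | j
      · have : u - 1 = t := hw.inj _ (by omega) _ (by omega) (by simpa using h1)
        obtain rfl : u = t + 1 := by omega
        exact absurd hc t2
      · rcases ih j (by omega) (by omega) (u - 1) (by omega) h1 with h2 | ⟨h2, h3⟩
        · have h3 := (mem_St.1 h2).2
          rw [rs_eq (u := u) (s := u - 1) (by omega) (fun h4 => h3 (h4 ▸ hD)) fun k k1 k2 => by
            obtain rfl : k = u := by omega
            rfl]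
          exact h3
        · obtain ⟨-, f2, f3⟩ := mem_FR.1 h2
          rw [rs_eq (u := u) (s := rs w (u - 1)) ((rs_le _ _).trans (by omega))
            (fun h4 => f3 (h4 ▸ hD)) fun k k1 k2 => by
              rcases k2.lt_or_eq with k3 | rfl
              · rw [pd_run k1 (by omega), h3, hc]
              · rfl]
          exact f3
    · refine absurd ?_ (hw.pru u hu t htu (j + 1))
      rw [h, hc, smul_neg]; abel
    · exact (lat _ er hc i2).elim
    · refine (lat (-rot (pd w t)) (by rw [dot_neg, er]; simp) hc ?_).elim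
      rw [sub_neg_eq_add, ← sub_eq_add_neg]
      exact i2.symm

theorem Walk.sum_dd (hw : Walk N w) : ∑ t ∈ Turn N w, dd w t ≤
    (PF N w).card + 6 * ((faces (Vs N w)).card + (Mg N w).card) := by
  set A := (Turn N w).sigma fun t => range (dd w t) with hA
  have h0 : ∑ t ∈ Turn N w, dd w t = A.card := by simp [hA, card_sigma]
  have memA : ∀ x ∈ A, x.1 ∈ Turn N w ∧ x.2 < dd w x.1 := fun x hx => by
    simpa [hA] using hx
  have h1 : (A.filter fun x => x.1 ∈ FR N w).card ≤ (PF N w).card := by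
    refine card_le_of_rel _ _ (fun x y => y.1 = rs w x.1 ∧ y.2.2 = rot (pd w x.1) ∧
      dot (pd w x.1) y.2.1 = dot (pd w x.1) (w x.1) + (x.2 + 1)) ?_ ?_
    · intro x hx
      obtain ⟨hx, hF⟩ := mem_filter.1 hx
      obtain ⟨f1, f2, f3⟩ := mem_FR.1 hF
      obtain ⟨-, i, i1, i2⟩ := sup_of_lt (memA x hx).2
      have hr := rot_D4 _ f2
      obtain ⟨k, hk⟩ := exists_face (Vs N w) (w_mem (i1.trans f1)) (D4_sub _ hr)
      refine ⟨(rs w x.1, _), mem_pairs.2 ⟨mem_St.2 ⟨(rs_le _ _).trans f1, f3⟩, hk, ?_⟩, rfl, rfl, ?_⟩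
      · simp only
        rw [fst_ray hr, ← fst_run f2 (rs_le _ _) le_rfl]
        rcases i2 with i2 | i2 <;> rw [i2]
        · rw [Prod.fst_add, fst_ray f2, D4_fst _ hr, add_zero]
        · rw [Prod.fst_sub, fst_ray f2, D4_fst _ hr, sub_zero]
      · simp only
        rw [dot_ray f2]
        rcases i2 with i2 | i2 <;> rw [i2]
        · rw [dot_add, dot_add, dot_nsmul, dot_rot _ f2, dot_self _ (D4_sub _ f2)]; simp
        · rw [dot_sub, dot_add, dot_nsmul, dot_rot _ f2, dot_self _ (D4_sub _ f2)]; simp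
    · have key : ∀ t ∈ Turn N w, ∀ t', pd w t ∈ D4 → rs w t = rs w t' → pd w t = pd w t' →
          ¬ t < t' := by
        intro t ht t' he a1 a2 a3
        have := rs_lt he
        exact (mem_Turn.1 ht).2 (by rw [pd_run (u := t') (by omega) (by omega), a2])
      rintro ⟨t, j⟩ hx ⟨t', j'⟩ hx' y ⟨a1, a2, a3⟩ ⟨b1, b2, b3⟩
      obtain ⟨hx, hF⟩ := mem_filter.1 hx
      obtain ⟨hx', hF'⟩ := mem_filter.1 hx'
      have f2 := (mem_FR.1 hF).2.1
      have f2' := (mem_FR.1 hF').2.1
      simp only at *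
      have he : pd w t = pd w t' := rot_inj _ f2 _ f2' (a2.symm.trans b2)
      have k1 := key t (memA _ hx).1 t' f2 (a1.symm.trans b1) he
      have k2 := key t' (memA _ hx').1 t f2' (b1.symm.trans a1) he.symm
      obtain rfl : t = t' := by omega
      obtain rfl : j = j' := by omega
      rfl
  have h2 : (A.filter fun x => x.1 ∉ FR N w).card ≤
      (((faces (Vs N w)).image (fun φ => φ.1 + φ.2) ∪ (Mg N w).image w) ×ˢ dirs).card := by
    refine card_le_of_rel _ _ (fun x y => y = (w x.1 + (x.2 + 1) • pd w x.1, pd w x.1)) ?_ ?_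
    · intro x hx
      obtain ⟨hx, -⟩ := mem_filter.1 hx
      obtain ⟨m1, m2⟩ := memA x hx
      obtain ⟨he, i, i1, i2⟩ := sup_of_lt m2
      refine ⟨_, mem_product.2 ⟨?_, D4_sub _ he⟩, rfl⟩
      have hi : i ≤ N := i1.trans (mem_Turn.1 m1).1.le
      have hr := D4_sub _ (rot_D4 _ he)
      by_cases hV : w x.1 + (x.2 + 1) • pd w x.1 ∈ Vs N w
      · obtain ⟨u, u1, u2⟩ := mem_Vs.1 hV
        refine mem_union_right _ (mem_image.2 ⟨u, ?_, u2⟩)
        rcases hw.dead m1 _ m2 u u1 u2 with h | h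
        · exact mem_union_left _ (mem_union_left _ h)
        · exact mem_union_left _ (mem_union_right _ h.1)
      · refine mem_union_left _ (mem_image.2 ?_)
        rcases i2 with i2 | i2
        · refine ⟨(w i, -rot (pd w x.1)), mem_faces.2 ⟨w_mem hi, neg_dirs _ hr, ?_⟩, ?_⟩ <;>
            simp only [i2, add_neg_cancel_right]
          exact hV
        · refine ⟨(w i, rot (pd w x.1)), mem_faces.2 ⟨w_mem hi, hr, ?_⟩, ?_⟩ <;>
            simp only [i2, sub_add_cancel]
          exact hV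
    · have key : ∀ t ∈ Turn N w, ∀ j < dd w t, ∀ t' ∈ Turn N w, t' ∉ FR N w → ∀ j' : ℕ,
          pd w t = pd w t' → w t + (j + 1) • pd w t = w t' + (j' + 1) • pd w t → ¬ t < t' := by
        intro t ht j hj t' ht' hF j' he h hlt
        have hN := (mem_Turn.1 ht').1.le
        have hD := (sup_of_lt hj).1
        rcases le_or_gt j j' with h1 | h1
        · obtain ⟨k, rfl⟩ := Nat.exists_eq_add_of_le h1
          refine hw.pru t' hN t hlt k ?_
          rw [← he]
          refine add_right_cancel (b := (j + 1) • pd w t) ?_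
          rw [h, add_assoc (w t'), ← add_nsmul]; congr 2; omega
        · obtain ⟨k, rfl⟩ := Nat.exists_eq_add_of_lt h1
          have h2 : w t' = w t + (k + 1) • pd w t := by
            refine add_right_cancel (b := (j' + 1) • pd w t) ?_
            rw [← h, add_assoc (w t), ← add_nsmul]; congr 2; omega
          rcases hw.dead ht k (by omega) t' hN h2 with h3 | h3
          · exact (mem_St.1 h3).2 (he ▸ hD)
          · exact hF h3.1
      rintro ⟨t, j⟩ hx ⟨t', j'⟩ hx' y rfl h
      obtain ⟨hx, hF⟩ := mem_filter.1 hx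
      obtain ⟨hx', hF'⟩ := mem_filter.1 hx'
      obtain ⟨m1, m2⟩ := memA _ hx
      obtain ⟨m1', m2'⟩ := memA _ hx'
      simp only [Prod.mk.injEq] at *
      obtain ⟨h, he⟩ := h
      have k1 := key t m1 j m2 t' m1' hF' j' he (by rw [h, he])
      have k2 := key t' m1' j' m2' t m1 hF j he.symm (by rw [← h, he])
      obtain rfl : t = t' := by omega
      have := congrArg (dot (pd w t)) h
      rw [dot_add, dot_add, dot_nsmul, dot_nsmul, dot_self _ (D4_sub _ (sup_of_lt m2).1)] at this
      obtain rfl : j = j' := by omega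
      rfl
  rw [card_product, card_dirs] at h2
  have h3 := card_filter_add_card_filter_not (s := A) fun x => x.1 ∈ FR N w
  have h4 := card_union_le ((faces (Vs N w)).image fun φ => φ.1 + φ.2) ((Mg N w).image w)
  have h5 := card_image_le (s := faces (Vs N w)) (f := fun φ => φ.1 + φ.2)
  have h6 := card_image_le (s := Mg N w) (f := w)
  omega

end Pool.Agent.MP_7b45f6_mp.H11
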