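import Mathlib

set_option autoImplicit false

namespace Pool.Agent.MP_7b45f6_mp.H11

open Classical

/-- Sites of the simple cubic lattice, written (x, y, z). -/
abbrev P := ℤ × ℤ × ℤ

/-- Two sites at lattice distance one. -/
def Adj (p q : P) : Prop := |p.1 - q.1| + |p.2.1 - q.2.1| + |p.2.2 - q.2.2| = 1

/-- `w 0, ..., w (n-1)` runs once round an embedded cycle with `n` edges. -/
def IsTour (n : ℕ) (w : ℕ → P) : Prop :=
  3 ≤ n ∧ (∀ i < n, ∀ j < n, w i = w j → i = j) ∧ ∀ i < n, Adj (w i) (w ((i + 1) % n))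

/-- No step of `w 0, ..., w (n-1)` points towards a site visited before. -/
def Prudent (n : ℕ) (w : ℕ → P) : Prop :=
  ∀ i, i + 1 < n → ∀ j ≤ i, ∀ k : ℕ, w j ≠ w (i + 1) + k • (w (i + 1) - w i)

/-- The edge set of the cycle (closing edge included). -/
noncomputable def edges (n : ℕ) (w : ℕ → P) : Finset (Sym2 P) :=
  (Finset.range n).image fun i => s(w i, w ((i + 1) % n))

/-- The vertices of an edge set. -/
noncomputable def verts (E : Finset (Sym2 P)) : Finset P := E.biUnion Sym2.toFinset

/-- Number of vertices in the plane z = 0. -/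
noncomputable def visits (E : Finset (Sym2 P)) : ℕ := ((verts E).filter fun p => p.2.2 = 0).card

/-- Number of pairs of vertices at distance one that are not joined by an edge of `E`. -/
noncomputable def contacts (E : Finset (Sym2 P)) : ℕ :=
  ((verts E).sym2.filter fun e => e ∉ E ∧ ∃ p q, e = s(p, q) ∧ Adj p q).card

/-- Number of edges of `E` between the planes x = c and x = c + 1. -/
noncomputable def crossings (E : Finset (Sym2 P)) (c : ℤ) : ℕ :=
  (E.filter fun e => ∃ p q, e = s(p, q) ∧ p.1 = c ∧ q.1 = c + 1).card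

/-- Prudent `n`-edge polygons in z ≥ 0 with at least two surface vertices that cross every plane
x = c + 1/2 at most `m` times; one representative (least x and least y equal to 0) for each class
under translations parallel to z = 0. -/
def Poly (m n : ℕ) : Set (Finset (Sym2 P)) :=
  {E | (∃ w, IsTour n w ∧ Prudent n w ∧ E = edges n w) ∧
    (∀ p ∈ verts E, 0 ≤ p.1 ∧ 0 ≤ p.2.1 ∧ 0 ≤ p.2.2) ∧
    (∃ p ∈ verts E, p.1 = 0) ∧ (∃ p ∈ verts E, p.2.1 = 0) ∧
    2 ≤ visits E ∧ ∀ c, crossings E c ≤ m}

/-- The partition function. -/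
noncomputable def Z (m n : ℕ) (α β : ℝ) : ℝ :=
  ∑ᶠ E ∈ Poly m n, Real.exp (α * visits E + β * contacts E)

/-- The free energy per edge at even length `2 j`. -/
noncomputable def Fn (m : ℕ) (α β : ℝ) (j : ℕ) : ℝ :=
  Real.log (Z m (2 * j) α β) / (2 * j : ℕ)

end Pool.Agent.MP_7b45f6_mp.H11
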