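import Pool.Agent.MP_7b45f6_mp.H11.Count2

set_option autoImplicit false

namespace Pool.Agent.MP_7b45f6_mp.H11

open Finset Classical

noncomputable def xw (w : ℕ → P) (t : ℕ) : ℝ := (1 / 2) ^ dd w t

/-- A sub-probability kernel that predicts the next site from the past. -/
noncomputable def ker (w : ℕ → P) (t : ℕ) (p : P) : ℝ :=
  if p - w t = pd w t then 1 - xw w t / 2 else xw w t / 12

theorem xw_pos (w : ℕ → P) (t : ℕ) : 0 < xw w t := by unfold xw; positivity
theorem xw_le (w : ℕ → P) (t : ℕ) : xw w t ≤ 1 := pow_le_one₀ (by norm_num) (by norm_num)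

theorem ker_nonneg (w : ℕ → P) (t : ℕ) (p : P) : 0 ≤ ker w t p := by
  have := xw_pos w t
  have := xw_le w t
  unfold ker; split_ifs <;> linarith

theorem ker_sum (w : ℕ → P) (t : ℕ) : ∑ e ∈ dirs, ker w t (w t + e) ≤ 1 := by
  have h0 := xw_pos w t
  have h1 := xw_le w t
  have h : ∀ e ∈ dirs, ker w t (w t + e) ≤
      (if e = pd w t then 1 - xw w t / 2 else 0) + xw w t / 12 := by
    intro e _
    unfold ker
    rw [add_sub_cancel_left]
    split_ifs <;> linarith
  refine (sum_le_sum h).trans ?_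
  rw [sum_add_distrib, sum_ite_eq', sum_const, card_dirs]
  split_ifs <;> simp <;> linarith

theorem ker_congr {w w' : ℕ → P} {t : ℕ} (h : ∀ i ≤ t, w i = w' i) (p : P) :
    ker w t p = ker w' t p := by
  have h1 : pd w t = pd w' t := by unfold pd; rw [h t le_rfl, h (t - 1) (by omega)]
  have h2 : ∀ e q, Sup w t e q ↔ Sup w' t e q := fun e q =>
    exists_congr fun i => and_congr_right fun hi => by rw [h i hi]
  have h3 : dd w t = dd w' t := by simp only [dd, h1, h2, h t le_rfl]
  simp only [ker, xw, h1, h3, h t le_rfl]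

theorem sum_prod_ker (a : P) : ∀ (N : ℕ) (W : Finset (ℕ → P)), (∀ w ∈ W, w 0 = a) →
    (∀ w ∈ W, ∀ t < N, w (t + 1) - w t ∈ dirs) →
    (∀ u ∈ W, ∀ v ∈ W, (∀ t ≤ N, u t = v t) → u = v) →
    ∑ w ∈ W, ∏ t ∈ range N, ker w t (w (t + 1)) ≤ 1 := by
  intro N
  induction N with
  | zero =>
    intro W h0 _ h2
    have : W.card ≤ 1 := card_le_one.2 fun u hu v hv => h2 u hu v hv fun t ht => by
      obtain rfl : t = 0 := by omega
      rw [h0 u hu, h0 v hv]
    simpa using this
  | succ N ih =>
    intro W h0 h1 h2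
    let tr : (ℕ → P) → ℕ → P := fun w t => if t ≤ N then w t else 0
    have htr : ∀ w, ∀ t ≤ N, tr w t = w t := fun w t ht => if_pos ht
    refine le_trans ?_ (ih (W.image tr) ?_ ?_ ?_)
    · rw [← sum_fiberwise_of_maps_to (g := tr) (t := W.image tr) fun w hw => mem_image_of_mem _ hw]
      refine sum_le_sum fun u _ => ?_
      have e : ∀ w ∈ W.filter fun w => tr w = u, ∏ t ∈ range (N + 1), ker w t (w (t + 1)) =
          (∏ t ∈ range N, ker u t (u (t + 1))) * ker u N (u N + (w (N + 1) - w N)) := by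
        intro w hw
        obtain ⟨-, rfl⟩ := mem_filter.1 hw
        rw [prod_range_succ, htr w N le_rfl, add_sub_cancel,
          ker_congr (fun i hi => htr w i hi)]
        congr 1
        refine prod_congr rfl fun t ht => ?_
        have := mem_range.1 ht
        rw [htr w (t + 1) (by omega), ker_congr (fun i hi => htr w i (by omega))]
      rw [sum_congr rfl e, ← mul_sum]
      refine mul_le_of_le_one_right (prod_nonneg fun _ _ => ker_nonneg _ _ _) ?_
      refine le_trans ?_ (ker_sum u N)
      rw [← sum_image (s := W.filter fun w => tr w = u) (g := fun w => w (N + 1) - w N)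
        (f := fun e => ker u N (u N + e))]
      · refine sum_le_sum_of_subset_of_nonneg ?_ fun _ _ _ => ker_nonneg _ _ _
        intro e he
        obtain ⟨w, hw, rfl⟩ := mem_image.1 he
        exact h1 w (mem_filter.1 hw).1 N (by omega)
      · intro w hw v hv h
        obtain ⟨hw, hw'⟩ := mem_filter.1 (mem_coe.1 hw)
        obtain ⟨hv, hv'⟩ := mem_filter.1 (mem_coe.1 hv)
        have k : ∀ t ≤ N, w t = v t := fun t ht => by
          rw [← htr w t ht, ← htr v t ht, hw', hv']
        refine h2 w hw v hv fun t ht => ?_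
        rcases ht.lt_or_eq with ht | rfl
        · exact k t (by omega)
        · simp only [k N le_rfl] at h
          exact sub_left_inj.1 h
    · intro u hu
      obtain ⟨w, hw, rfl⟩ := mem_image.1 hu
      rw [htr w 0 (by omega), h0 w hw]
    · intro u hu t ht
      obtain ⟨w, hw, rfl⟩ := mem_image.1 hu
      rw [htr w t (by omega), htr w (t + 1) (by omega)]
      exact h1 w hw t (by omega)
    · intro u hu v hv h
      obtain ⟨w, -, rfl⟩ := mem_image.1 hu
      obtain ⟨w', -, rfl⟩ := mem_image.1 hv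
      funext t
      by_cases ht : t ≤ N
      · exact h t ht
      · simp only [tr, if_neg ht]

theorem dd_succ {w : ℕ → P} {t : ℕ} (h1 : pd w (t + 1) = pd w t) (he : pd w t ∈ D4)
    (h2 : Sup w t (pd w t) (w (t + 1))) : dd w (t + 1) + 1 = dd w t := by
  set e := pd w t with hedef
  have ee := dot_self _ (D4_sub _ he)
  have er := dot_rot _ he
  have rr := dot_self _ (D4_sub _ (rot_D4 _ he))
  have re : dot (rot e) e = 0 := by rw [dot_comm]; exact er
  have hw : w (t + 1) = w t + e := by rw [w_succ w t, h1]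
  have hne : {k | ¬ Sup w t e (w t + (k + 1) • e)}.Nonempty := by
    by_contra hc
    have hall : ∀ k : ℕ, ∃ i, i ∈ Set.Iic t ∧ dot e (w i) = dot e (w t) + (k + 1) := by
      intro k
      obtain ⟨i, i1, i2⟩ : Sup w t e (w t + (k + 1) • e) := by
        by_contra h; exact hc ⟨k, h⟩
      refine ⟨i, i1, ?_⟩
      rcases i2 with i2 | i2 <;> rw [i2]
      · rw [dot_add, dot_add, dot_nsmul, er, ee]; simp
      · rw [dot_sub, dot_add, dot_nsmul, er, ee]; simp
    choose f hf hf' using hall
    refine Set.infinite_of_injective_forall_mem (f := f) (fun a b hab => ?_) hf (Set.finite_Iic t)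
    have := hf' a
    rw [hab, hf' b] at this
    omega
  have hpos : 1 ≤ sInf {k | ¬ Sup w t e (w t + (k + 1) • e)} := by
    by_contra hc
    have := Nat.sInf_mem hne
    rw [show sInf {k | ¬ Sup w t e (w t + (k + 1) • e)} = 0 by omega] at this
    exact this (by simpa [← hw] using h2)
  unfold dd
  rw [h1, if_pos he, if_pos he, ← Nat.sInf_add hpos]
  congr 2
  ext k
  have hk : w (t + 1) + (k + 1) • e = w t + (k + 1 + 1) • e := by
    rw [hw, succ_nsmul' e (k + 1), add_assoc]
  simp only [Set.mem_ofPred_eq, ← hk]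
  refine not_congr ⟨?_, fun ⟨i, i1, i2⟩ => ⟨i, by omega, i2⟩⟩
  rintro ⟨i, i1, i2⟩
  rcases i1.lt_or_eq with i1 | rfl
  · exact ⟨i, by omega, i2⟩
  · exfalso
    rcases i2 with i2 | i2 <;> have := congrArg (dot (rot e)) i2
    · rw [dot_add, dot_add, dot_nsmul, re, rr] at this; omega
    · rw [dot_sub, dot_add, dot_nsmul, re, rr] at this; omega

variable {N : ℕ} {w : ℕ → P}

theorem ker_ge (w : ℕ → P) (t : ℕ) :
    Real.exp (-(if pd w (t + 1) = pd w t then xw w t else dd w t + 3)) ≤ ker w t (w (t + 1)) := by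
  have h0 := xw_pos w t
  have h1 := xw_le w t
  unfold ker
  rw [← pd_succ]
  split_ifs with h
  · rw [Real.exp_neg, inv_le_comm₀ (Real.exp_pos _) (by linarith)]
    refine le_trans ?_ (Real.add_one_le_exp _)
    rw [inv_le_iff_one_le_mul₀ (by linarith)]
    nlinarith
  · have e1 : Real.exp (-1) ≤ 1 / 2 := by
      rw [Real.exp_neg, inv_le_comm₀ (Real.exp_pos _) (by norm_num)]
      have := Real.add_one_le_exp 1
      linarith
    have e2 : Real.exp (-3) ≤ 1 / 12 := by
      rw [Real.exp_neg, inv_le_comm₀ (Real.exp_pos _) (by norm_num)]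
      have h2 := Real.exp_one_gt_d9
      have h3 : Real.exp 3 = Real.exp 1 ^ 3 := by rw [← Real.exp_nat_mul]; norm_num
      have h4 : (2.7 : ℝ) ^ 3 ≤ Real.exp 1 ^ 3 := pow_le_pow_left₀ (by norm_num) (by linarith) 3
      rw [h3]; norm_num at h4 ⊢; linarith
    have e3 : Real.exp (-((dd w t : ℝ) + 3)) = Real.exp (-1) ^ dd w t * Real.exp (-3) := by
      rw [← Real.exp_nat_mul, ← Real.exp_add]; congr 1; ring
    rw [e3, div_eq_mul_one_div (xw w t)]
    exact mul_le_mul (pow_le_pow_left₀ (Real.exp_pos _).le e1 _) e2 (Real.exp_pos _).le h0.le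

theorem Walk.cost (hw : Walk N w) {M : ℕ} (h1 : 1 ≤ M)
    (hM : ∀ c, ((St N w).filter fun t => (w t).1 = c).card ≤ M) :
    Real.exp (-(300 * M ^ 2 * (faces (Vs N w)).card : ℝ)) ≤
      ∏ t ∈ range N, ker w t (w (t + 1)) := by
  refine le_trans ?_ (prod_le_prod (fun _ _ => (Real.exp_pos _).le) fun t _ => ker_ge w t)
  rw [← Real.exp_sum, Real.exp_le_exp, sum_neg_distrib, neg_le_neg_iff]
  set B := (range N).filter fun t => t + 1 ∈ Mg N w ∪ Un N w with hB
  have hp : ∀ t ∈ range N, (if pd w (t + 1) = pd w t then xw w t else (dd w t : ℝ) + 3) ≤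
      (xw w (t + 1) - xw w t) + (if t ∈ B then 2 else 0) +
        (if pd w (t + 1) ≠ pd w t then (dd w t : ℝ) + 4 else 0) := by
    intro t ht
    have a1 := xw_pos w t
    have a2 := xw_le w t
    have a3 := xw_pos w (t + 1)
    by_cases h : pd w (t + 1) = pd w t
    · rw [if_pos h, if_neg (not_not.2 h)]
      split_ifs with hb
      · linarith
      · have ht' := mem_range.1 ht
        simp only [hB, mem_filter, ht, true_and, mem_union, not_or] at hb
        have he := (hw.good (by omega) hb.1).1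
        have hs : Sup w t (pd w (t + 1)) (w (t + 1)) := by
          by_contra hc; exact hb.2 (mem_Un.2 ⟨by omega, he, hc⟩)
        rw [h] at he hs
        have : xw w t = xw w (t + 1) / 2 := by
          unfold xw; rw [← dd_succ h he hs, pow_succ]; ring
        linarith
    · rw [if_neg h, if_pos h]
      split_ifs <;> linarith
  refine (sum_le_sum hp).trans ?_
  rw [sum_add_distrib, sum_add_distrib, sum_range_sub (xw w), ← sum_filter, ← sum_filter,
    sum_const, sum_add_distrib, sum_const, ← Nat.cast_sum]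
  have b1 : ((range N).filter fun t => t ∈ B).card ≤ (Mg N w).card + (Un N w).card := by
    refine le_trans (card_le_card_of_injOn (fun t => t + 1) (fun t ht => ?_)
      fun a _ b _ h => by simpa using h) (card_union_le _ _)
    exact (mem_filter.1 (mem_filter.1 (mem_coe.1 ht)).2).2
  obtain ⟨c1, c2⟩ := hw.card_Mg h1 hM
  have c3 := hw.card_Un
  have c4 := hw.card_Turn
  have c5 := hw.sum_dd
  have c6 : 1 ≤ (faces (Vs N w)).card := by
    obtain ⟨k, hk⟩ := exists_face (Vs N w) (w_mem (Nat.zero_le N))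
      (show ((0, 1, 0) : P) ∈ dirs by decide)
    exact card_pos.2 ⟨_, hk⟩
  have c7 : (faces (Vs N w)).card ≤ M ^ 2 * (faces (Vs N w)).card :=
    Nat.le_mul_of_pos_left _ (by positivity)
  have c8 : 1 + 2 * ((range N).filter fun t => t ∈ B).card + (∑ t ∈ Turn N w, dd w t) +
      4 * (Turn N w).card ≤ 300 * (M ^ 2 * (faces (Vs N w)).card) := by omega
  have c9 := (Nat.cast_le (α := ℝ)).2 c8
  have := xw_le w N
  have := xw_pos w 0
  simp only [nsmul_eq_mul]
  change _ + _ + (((∑ t ∈ Turn N w, dd w t : ℕ) : ℝ) + ((Turn N w).card : ℝ) * 4) ≤ _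
  push_cast at c9 ⊢
  linarith

end Pool.Agent.MP_7b45f6_mp.H11
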