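import Pool.Agent.MP_7b45f6_mp.H11.Upper

set_option autoImplicit false

namespace Pool.Agent.MP_7b45f6_mp.H11

open Finset Classical

/-- The site `p` carries the label `κ` in the compact polygon with parameters `k`, `A`, `L`. -/
def G (k A L : ℤ) (κ p : P) : Prop :=
  (κ.1 = -2 ∧ κ.2.1 = 0 ∧ 0 ≤ κ.2.2 ∧ κ.2.2 < k + A ∧
    p.1 = k + A - 1 - κ.2.2 ∧ p.2.1 = 0 ∧ p.2.2 = 0) ∨
  (κ.1 = -1 ∧ κ.2.1 = 0 ∧ 0 ≤ κ.2.2 ∧ κ.2.2 ≤ k ∧ p.1 = κ.2.2 ∧ p.2.1 = 0 ∧ p.2.2 = 1) ∨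
  (κ.1 = A ∧ κ.2.1 = 0 ∧ κ.2.2 = 0 ∧ p.1 = k + A - 1 ∧ p.2.1 = 0 ∧ p.2.2 = 1) ∨
  (0 ≤ κ.1 ∧ κ.1 < A ∧ 0 ≤ κ.2.1 ∧ κ.2.1 < L ∧ 0 ≤ κ.2.2 ∧ κ.2.2 < L ∧ p.1 = k + κ.1 ∧
    ((κ.1 % 2 = 0 ∧ p.2.2 = 1 + κ.2.1) ∨ (κ.1 % 2 = 1 ∧ p.2.2 = L - κ.2.1)) ∧
    (((κ.1 + p.2.2) % 2 = 1 ∧ p.2.1 = 1 + κ.2.2) ∨ ((κ.1 + p.2.2) % 2 = 0 ∧ p.2.1 = L - κ.2.2)))

def Lt (κ μ : P) : Prop :=
  κ.1 < μ.1 ∨ (κ.1 = μ.1 ∧ κ.2.1 < μ.2.1) ∨ (κ.1 = μ.1 ∧ κ.2.1 = μ.2.1 ∧ κ.2.2 < μ.2.2)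

def Nx (k A L : ℤ) (κ μ : P) : Prop :=
  (μ.1 = κ.1 ∧ μ.2.1 = κ.2.1 ∧ μ.2.2 = κ.2.2 + 1) ∨
  (κ.1 = -2 ∧ κ.2.2 = k + A - 1 ∧ μ.1 = -1 ∧ μ.2.1 = 0 ∧ μ.2.2 = 0) ∨
  (κ.1 = -1 ∧ κ.2.2 = k ∧ μ.1 = 0 ∧ μ.2.1 = 0 ∧ μ.2.2 = 0) ∨
  (0 ≤ κ.1 ∧ κ.2.2 = L - 1 ∧ μ.1 = κ.1 ∧ μ.2.1 = κ.2.1 + 1 ∧ μ.2.2 = 0) ∨
  (0 ≤ κ.1 ∧ κ.2.1 = L - 1 ∧ κ.2.2 = L - 1 ∧ μ.1 = κ.1 + 1 ∧ μ.2.1 = 0 ∧ μ.2.2 = 0)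

section lin
variable {k A L : ℤ}

theorem G.ne (hA : 2 ≤ A) {κ μ p q : P} (h1 : G k A L κ p) (h2 : G k A L μ q)
    (h : Lt κ μ) : p ≠ q := by
  rintro rfl
  unfold G Lt at *
  omega

theorem G.step (hA : 2 ≤ A) (hA2 : A % 2 = 0) {κ μ p q : P} (h1 : G k A L κ p)
    (h2 : G k A L μ q) (h : Nx k A L κ μ) : q - p ∈ dirs := by
  rw [← adj_iff]
  have key : (p.1 = q.1 ∧ p.2.1 = q.2.1 ∧ (p.2.2 = q.2.2 + 1 ∨ q.2.2 = p.2.2 + 1)) ∨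
      (p.1 = q.1 ∧ p.2.2 = q.2.2 ∧ (p.2.1 = q.2.1 + 1 ∨ q.2.1 = p.2.1 + 1)) ∨
      (p.2.1 = q.2.1 ∧ p.2.2 = q.2.2 ∧ (p.1 = q.1 + 1 ∨ q.1 = p.1 + 1)) := by
    unfold G Nx at *
    rcases h with h | h | h | h | h
    · rcases h1 with h1 | h1 | h1 | h1
      · right; right; omega
      · right; right; omega
      · omega
      · right; left; omega
    · left; omega
    · right; left; omega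
    · left; omega
    · by_cases e : μ.1 = A
      · right; left; omega
      · right; right; omega
  unfold Adj
  rcases key with ⟨a, b, c | c⟩ | ⟨a, b, c | c⟩ | ⟨a, b, c | c⟩ <;> simp [a, b, c]

theorem G.prud (hA : 2 ≤ A) (hA2 : A % 2 = 0) {κ μ ν p q r : P} (h1 : G k A L κ p)
    (h2 : G k A L μ q) (h : Nx k A L κ μ) (h3 : G k A L ν r) (h4 : Lt ν μ) (t : ℕ) :
    r ≠ q + t • (q - p) := by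
  intro e
  have hd := G.step hA hA2 h1 h2 h
  have e1 := congrArg (fun x : P => x.1) e
  have e2 := congrArg (fun x : P => x.2.1) e
  have e3 := congrArg (fun x : P => x.2.2) e
  have f1 : (q - p).1 = q.1 - p.1 := rfl
  have f2 : (q - p).2.1 = q.2.1 - p.2.1 := rfl
  have f3 : (q - p).2.2 = q.2.2 - p.2.2 := rfl
  simp only [dirs, mem_insert, mem_singleton] at hd
  unfold G Nx Lt at *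
  rcases hd with hd | hd | hd | hd | hd | hd <;>
    simp only [hd, nsmul_mk, Prod.fst_add, Prod.snd_add] at e1 e2 e3 f1 f2 f3 <;> omega

theorem G.cross (hA : 2 ≤ A) {κ μ κ' μ' p q p' q' : P} {c : ℤ} (h1 : G k A L κ p)
    (h2 : G k A L μ q) (h : Nx k A L κ μ) (h1' : G k A L κ' p')
    (h2' : G k A L μ' q') (h' : Nx k A L κ' μ') (hl : Lt κ κ')
    (e : (p.1 = c ∧ q.1 = c + 1) ∨ (q.1 = c ∧ p.1 = c + 1))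
    (e' : (p'.1 = c ∧ q'.1 = c + 1) ∨ (q'.1 = c ∧ p'.1 = c + 1)) : μ.1 = -2 ∧ μ'.1 ≠ -2 := by
  unfold G Nx Lt at *
  omega

end lin

end Pool.Agent.MP_7b45f6_mp.H11
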