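import Pool.Agent.MP_7b45f6_mp.H11.Lower

set_option autoImplicit false

namespace Pool.Agent.MP_7b45f6_mp.H11

open Finset Classical

theorem odo_succ {L : ℕ} (hL : 0 < L) (u : ℕ) :
    (u % L + 1 < L ∧ (u + 1) / L = u / L ∧ (u + 1) % L = u % L + 1) ∨
    (u % L + 1 = L ∧ (u + 1) / L = u / L + 1 ∧ (u + 1) % L = 0) := by
  have h1 := Nat.mod_lt u hL
  have h2 := Nat.div_add_mod u L
  rcases (Nat.succ_le_of_lt h1).lt_or_eq with h | h
  · left
    have := (Nat.div_mod_unique (a := u + 1) (c := u % L + 1) (d := u / L) hL).2 ⟨by omega, h⟩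
    exact ⟨h, this.1, this.2⟩
  · right
    have := (Nat.div_mod_unique (a := u + 1) (c := 0) (d := u / L + 1) hL).2
      ⟨by rw [Nat.mul_succ]; omega, hL⟩
    exact ⟨h, this.1, this.2⟩

/-- The label of the `i`-th site. -/
def key (k A L i : ℕ) : P :=
  if i < k + A then (-2, 0, i) else if i ≤ k + A + k then (-1, 0, ((i - (k + A) : ℕ) : ℤ)) else
    ((((i - (k + A + k + 1)) / L / L : ℕ) : ℤ), (((i - (k + A + k + 1)) / L % L : ℕ) : ℤ),
      (((i - (k + A + k + 1)) % L : ℕ) : ℤ))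

variable {k A L : ℕ}

theorem key_nx (hL : 0 < L) (i : ℕ) : Nx k A L (key k A L i) (key k A L (i + 1)) := by
  unfold key Nx
  by_cases h1 : i + 1 < k + A
  · rw [if_pos h1, if_pos (by omega)]; simp
  by_cases h2 : i < k + A
  · rw [if_pos h2, if_neg h1, if_pos (by omega)]
    exact Or.inr (Or.inl ⟨rfl, by simp only; omega, rfl, rfl, by simp only; omega⟩)
  by_cases h3 : i + 1 ≤ k + A + k
  · rw [if_neg h1, if_neg h2, if_pos h3, if_pos (by omega)]
    exact Or.inl ⟨rfl, rfl, by simp only; omega⟩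
  by_cases h4 : i ≤ k + A + k
  · rw [if_neg h1, if_neg h2, if_neg h3, if_pos h4]
    have : i + 1 - (k + A + k + 1) = 0 := by omega
    rw [this]
    exact Or.inr (Or.inr (Or.inl ⟨rfl, by simp only; omega, by simp, by simp, by simp⟩))
  rw [if_neg h1, if_neg h2, if_neg h3, if_neg h4]
  have : i + 1 - (k + A + k + 1) = i - (k + A + k + 1) + 1 := by omega
  rw [this]
  generalize i - (k + A + k + 1) = u
  rcases odo_succ hL u with ⟨a, b, c⟩ | ⟨a, b, c⟩
  · rw [b, c]; simp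
  · rw [b, c]
    rcases odo_succ hL (u / L) with ⟨a', b', c'⟩ | ⟨a', b', c'⟩ <;> rw [b', c']
    · exact Or.inr (Or.inr (Or.inr (Or.inl ⟨Int.natCast_nonneg _, eq_sub_of_add_eq
        (by simp only; exact_mod_cast a), rfl, Nat.cast_succ _, rfl⟩)))
    · exact Or.inr (Or.inr (Or.inr (Or.inr ⟨Int.natCast_nonneg _, eq_sub_of_add_eq
        (by simp only; exact_mod_cast a'), eq_sub_of_add_eq (by simp only; exact_mod_cast a),
        Nat.cast_succ _, rfl, rfl⟩)))

theorem key_lt (hL : 0 < L) {i j : ℕ} (h : i + 1 ≤ j) :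
    Lt (key k A L i) (key k A L j) := by
  induction j, h using Nat.le_induction with
  | base => have := key_nx (k := k) (A := A) hL i; unfold Nx Lt at *; omega
  | succ j _ ih => have := key_nx (k := k) (A := A) hL j; unfold Nx Lt at *; omega

theorem key_last (hL : 0 < L) : key k A L (k + A + k + 1 + A * L * L) = ((A : ℤ), 0, 0) := by
  unfold key
  rw [if_neg (by omega), if_neg (by omega), Nat.add_sub_cancel_left]
  simp [Nat.mul_div_cancel _ hL]

theorem key_site (hL : 0 < L) {i : ℕ} (hi : i < k + A + k + 1 + A * L * L + 1) :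
    ∃ p, G k A L (key k A L i) p := by
  by_cases h0 : i = k + A + k + 1 + A * L * L
  · rw [h0, key_last hL]
    exact ⟨(k + A - 1, 0, 1), Or.inr (Or.inr (Or.inl (by simp)))⟩
  unfold key
  by_cases h1 : i < k + A
  · rw [if_pos h1]
    exact ⟨(k + A - 1 - i, 0, 0), Or.inl (by simp only [true_and, and_true]; omega)⟩
  by_cases h2 : i ≤ k + A + k
  · rw [if_neg h1, if_pos h2]
    exact ⟨(_, 0, 1), Or.inr (Or.inl ⟨rfl, rfl, by simp only; omega, by simp only; omega,
      rfl, rfl, rfl⟩)⟩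
  rw [if_neg h1, if_neg h2]
  have hu : i - (k + A + k + 1) < A * L * L := by omega
  generalize i - (k + A + k + 1) = u at hu
  have a1 : u / L / L < A := by rwa [Nat.div_lt_iff_lt_mul hL, Nat.div_lt_iff_lt_mul hL]
  have a2 := Nat.mod_lt (u / L) hL
  have a3 := Nat.mod_lt u hL
  generalize u / L / L = s at *
  generalize u / L % L = r at *
  generalize u % L = c at *
  obtain ⟨z, hz⟩ : ∃ z : ℤ, ((s : ℤ) % 2 = 0 ∧ z = 1 + r) ∨ ((s : ℤ) % 2 = 1 ∧ z = L - r) := by
    rcases Int.emod_two_eq_zero_or_one s with h | h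
    · exact ⟨_, Or.inl ⟨h, rfl⟩⟩
    · exact ⟨_, Or.inr ⟨h, rfl⟩⟩
  obtain ⟨y, hy⟩ : ∃ y : ℤ, ((s + z) % 2 = 1 ∧ y = 1 + c) ∨ ((s + z) % 2 = 0 ∧ y = L - c) := by
    rcases Int.emod_two_eq_zero_or_one (s + z) with h | h
    · exact ⟨_, Or.inr ⟨h, rfl⟩⟩
    · exact ⟨_, Or.inl ⟨h, rfl⟩⟩
  refine ⟨(k + s, y, z), Or.inr (Or.inr (Or.inr ⟨?_, ?_, ?_, ?_, ?_, ?_, rfl, hz, hy⟩))⟩ <;>
    simp only <;> omega

theorem faces_le {V : Finset P} {X Y : ℕ}
    (h : ∀ p ∈ V, 0 ≤ p.1 ∧ p.1 < X ∧ 0 ≤ p.2.1 ∧ p.2.1 ≤ Y ∧ 0 ≤ p.2.2 ∧ p.2.2 ≤ Y) :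
    (faces V).card + 6 * V.card ≤ 6 * ((X + 2) * (Y + 3) ^ 2) := by
  set B : Finset P := Icc (-1 : ℤ) X ×ˢ Icc (-1 : ℤ) (Y + 1) ×ˢ Icc (-1 : ℤ) (Y + 1) with hB
  have hc : B.card = (X + 2) * (Y + 3) ^ 2 := by
    have e1 : ((X : ℤ) + 1 - -1).toNat = X + 2 := by omega
    have e2 : ((Y : ℤ) + 1 + 1 - -1).toNat = Y + 3 := by omega
    simp only [hB, card_product, Int.card_Icc, e1, e2]; ring
  have hs : V ⊆ B := fun p hp => by
    have := h p hp
    simp only [hB, mem_product, mem_Icc]; omega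
  have h1 : (faces V).card ≤ ((B \ V) ×ˢ dirs).card := by
    refine card_le_card_of_injOn (fun φ => (φ.1 + φ.2, φ.2)) ?_ ?_
    · intro φ hφ
      obtain ⟨a, b, c⟩ := mem_faces.1 (mem_coe.1 hφ)
      refine mem_coe.2 (mem_product.2 ⟨mem_sdiff.2 ⟨?_, c⟩, b⟩)
      have := h _ a
      simp only [dirs, mem_insert, mem_singleton] at b
      simp only [hB, mem_product, mem_Icc, Prod.fst_add, Prod.snd_add]
      rcases b with b | b | b | b | b | b <;> rw [b] <;> simp only <;> omega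
    · rintro ⟨a, b⟩ - ⟨a', b'⟩ - e
      obtain ⟨e1, e2⟩ := Prod.mk.inj e
      simp only at e1 e2
      subst e2
      rw [add_right_cancel e1]
  have h2 := card_sdiff_add_card_eq_card hs
  rw [card_product, card_dirs] at h1
  omega

/-- The compact polygons. -/
theorem exists_poly (k : ℕ) (hL : 0 < L) (hA : 2 ≤ A) (hA2 : A % 2 = 0) {m : ℕ} (hm : 2 ≤ m) :
    ∃ E ∈ Poly m (k + A + k + 1 + A * L * L + 1), k + A ≤ visits E ∧
      (faces (verts E)).card + 6 * (k + A + k + 1 + A * L * L + 1) ≤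
        6 * ((k + A + 2) * (L + 3) ^ 2) := by
  set n := k + A + k + 1 + A * L * L + 1 with hn
  have hex : ∀ i < n, ∃ p, G k A L (key k A L i) p := fun i hi => key_site hL hi
  choose! w hw using hex
  have iA : (2 : ℤ) ≤ A := by omega
  have iA2 : (A : ℤ) % 2 = 0 := by omega
  have nx := fun i => key_nx (k := k) (A := A) hL i
  have lt := fun {i j : ℕ} (h : i + 1 ≤ j) => key_lt (k := k) (A := A) hL h
  have hsp : ∀ i < k + A, w i = ((k : ℤ) + A - 1 - i, 0, 0) := by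
    intro i hi
    have := hw i (by omega)
    rw [key, if_pos hi] at this
    unfold G at this
    simp only at this
    ext <;> simp only <;> omega
  have hlast : w (n - 1) = ((k : ℤ) + A - 1, 0, 1) := by
    have := hw (n - 1) (by omega)
    rw [show n - 1 = k + A + k + 1 + A * L * L by omega, key_last hL] at this
    rw [show n - 1 = k + A + k + 1 + A * L * L by omega]
    unfold G at this
    simp only at this
    ext <;> simp only <;> omega
  have hT : IsTour n w := by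
    refine ⟨by omega, fun i hi j hj e => ?_, fun i hi => ?_⟩
    · rcases lt_trichotomy i j with h | h | h
      · exact absurd e ((hw i hi).ne iA (hw j hj) (lt h))
      · exact h
      · exact absurd e.symm ((hw j hj).ne iA (hw i hi) (lt h))
    · rcases succ_mod hi with ⟨a, b⟩ | ⟨a, b⟩ <;> rw [a]
      · rw [show i = n - 1 by omega, hlast, hsp 0 (by omega)]; simp [Adj]
      · exact (adj_iff _ _).2 ((hw i hi).step iA iA2 (hw _ b) (nx i))
  have hV := verts_edges (w := w) (show 1 ≤ n by omega)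
  have hbox : ∀ p ∈ verts (edges n w), 0 ≤ p.1 ∧ p.1 < (k + A : ℕ) ∧ 0 ≤ p.2.1 ∧ p.2.1 ≤ L ∧
      0 ≤ p.2.2 ∧ p.2.2 ≤ L := by
    intro p hp
    rw [hV] at hp
    obtain ⟨i, hi, rfl⟩ := mem_Vs.1 hp
    have := hw i (by omega)
    unfold G at this
    omega
  have hvis : k + A ≤ visits (edges n w) := by
    rw [← card_range (k + A)]
    refine card_le_card_of_injOn w (fun i hi => ?_) fun i hi j hj e => ?_
    · have := mem_range.1 (mem_coe.1 hi)
      exact mem_coe.2 (mem_filter.2 ⟨hV ▸ w_mem (by omega), by rw [hsp i this]⟩)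
    · have := mem_range.1 (mem_coe.1 hi)
      have := mem_range.1 (mem_coe.1 hj)
      exact hT.2.1 i (by omega) j (by omega) e
  refine ⟨edges n w, ⟨⟨w, hT, fun i hi j hj t => ?_, rfl⟩, fun p hp => ?_,
    ⟨w (k + A - 1), hV ▸ w_mem (by omega), ?_⟩, ⟨w 0, hV ▸ w_mem (by omega), ?_⟩, by omega,
    fun c => le_trans ?_ hm⟩, hvis, ?_⟩
  · exact (hw i (by omega)).prud iA iA2 (hw _ hi) (nx i) (hw j (by omega)) (lt (by omega)) t
  · have := hbox p hp; omega
  · rw [hsp _ (by omega)]; simp only; omega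
  · rw [hsp _ (by omega)]
  · rw [← Fintype.card_bool, ← card_univ]
    have hcr : ∀ e ∈ (edges n w).filter fun e => ∃ p q, e = s(p, q) ∧ p.1 = c ∧ q.1 = c + 1,
        ∃ i, i + 1 < n ∧ e = s(w i, w (i + 1)) ∧
          (((w i).1 = c ∧ (w (i + 1)).1 = c + 1) ∨ ((w (i + 1)).1 = c ∧ (w i).1 = c + 1)) := by
      intro e he
      obtain ⟨he, p, q, e1, e2, e3⟩ := mem_filter.1 he
      obtain ⟨i, hi, rfl⟩ := mem_edges.1 he
      rcases succ_mod hi with ⟨a, b⟩ | ⟨a, b⟩ <;> rw [a] at e1 ⊢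
      · rw [show i = n - 1 by omega, hlast, hsp 0 (by omega)] at e1
        rcases Sym2.eq_iff.1 e1 with ⟨rfl, rfl⟩ | ⟨rfl, rfl⟩ <;> simp only at e2 e3 <;> omega
      · refine ⟨i, b, rfl, ?_⟩
        rcases Sym2.eq_iff.1 e1 with ⟨rfl, rfl⟩ | ⟨rfl, rfl⟩
        · exact Or.inl ⟨e2, e3⟩
        · exact Or.inr ⟨e2, e3⟩
    refine card_le_of_rel _ _ (fun e b => ∃ i, i + 1 < n ∧ e = s(w i, w (i + 1)) ∧
      (((w i).1 = c ∧ (w (i + 1)).1 = c + 1) ∨ ((w (i + 1)).1 = c ∧ (w i).1 = c + 1)) ∧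
        b = decide ((key k A L (i + 1)).1 = -2)) (fun e he => ?_) ?_
    · obtain ⟨i, a1, a2, a3⟩ := hcr e he
      exact ⟨_, mem_univ _, i, a1, a2, a3, rfl⟩
    · rintro e - e' - b ⟨i, a1, rfl, a3, a4⟩ ⟨j, b1, rfl, b3, b4⟩
      have hb := decide_eq_decide.1 (a4.symm.trans b4)
      rcases lt_trichotomy i j with h | h | h
      · have := (hw i (by omega)).cross iA (hw _ a1) (nx i) (hw j (by omega)) (hw _ b1) (nx j)
          (lt h) a3 b3
        exact absurd (hb.1 this.1) this.2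
      · rw [h]
      · have := (hw j (by omega)).cross iA (hw _ b1) (nx j) (hw i (by omega)) (hw _ a1) (nx i)
          (lt h) b3 a3
        exact absurd (hb.2 this.1) this.2
  · have := faces_le hbox
    rwa [hV, hT.card_Vs, ← hV] at this

end Pool.Agent.MP_7b45f6_mp.H11
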