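import Pool.Agent.MP_7b45f6_mp.H11.Lower2

set_option autoImplicit false

namespace Pool.Agent.MP_7b45f6_mp.H11

open Finset Filter Topology

variable {m j : ℕ} {E : Finset (Sym2 P)}

theorem Z_ge {n : ℕ} (hE : E ∈ Poly m n) (α β : ℝ) :
    Real.exp (α * visits E + β * contacts E) ≤ Z m n α β := by
  rw [Z_eq]
  exact single_le_sum (f := fun E => Real.exp (α * visits E + β * contacts E))
    (fun _ _ => (Real.exp_pos _).le) ((Set.Finite.mem_toFinset _).2 hE)

theorem poly_pos (hE : E ∈ Poly m (2 * j)) : (2 : ℝ) ≤ j := by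
  obtain ⟨⟨w, h, -⟩, -⟩ := hE
  have := h.1
  exact_mod_cast (show 2 ≤ j by omega)

theorem Fn_ge (hE : E ∈ Poly m (2 * j)) (α β : ℝ) {a : ℝ}
    (h : a * (2 * j) ≤ α * visits E + β * contacts E) : a ≤ Fn m α β j := by
  have := poly_pos hE
  rw [Fn, le_div_iff₀ (by push_cast; linarith), Real.le_log_iff_exp_le
    ((Real.exp_pos _).trans_le (Z_ge hE α β))]
  exact le_trans (Real.exp_le_exp.2 (by push_cast; exact h)) (Z_ge hE α β)

theorem Fn_le (hE : E ∈ Poly m (2 * j)) (α β : ℝ) :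
    Fn m α β j ≤ 3 * (Real.log (2 * j + 1) / (2 * j)) + (2 * β +
      2 * max (600 * ((2 * m + 1 : ℕ) : ℝ) ^ 2 + max α 0 - β) 0) := by
  have := poly_pos hE
  have h := Real.log_le_log ((Real.exp_pos _).trans_le (Z_ge hE α β)) (Z_le m (2 * j) α β)
  rw [Real.log_mul (by positivity) (Real.exp_pos _).ne', Real.log_pow, Real.log_exp] at h
  rw [Fn, div_le_iff₀ (by push_cast; linarith)]
  refine h.trans (le_of_eq ?_)
  push_cast
  field_simp

theorem poly_real {n : ℕ} (hE : E ∈ Poly m n) :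
    (contacts E : ℝ) = 2 * n - ((faces (verts E)).card : ℝ) / 2 ∧
      2 * (visits E : ℝ) ≤ (faces (verts E)).card ∧ (visits E : ℝ) ≤ n ∧ (0 : ℝ) ≤ visits E ∧
      (0 : ℝ) ≤ contacts E := by
  obtain ⟨a1, a2, a3⟩ := poly_facts hE
  have b1 : (2 * contacts E + (faces (verts E)).card : ℝ) = 4 * n := by exact_mod_cast a1
  refine ⟨by linarith, by exact_mod_cast a2, ?_, Nat.cast_nonneg _, Nat.cast_nonneg _⟩
  exact_mod_cast a3 ▸ card_filter_le _ _

theorem Fn_bdd (m : ℕ) (α β : ℝ) : ∃ M, ∀ j, |Fn m α β j| ≤ M := by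
  set K := max (600 * ((2 * m + 1 : ℕ) : ℝ) ^ 2 + max α 0 - β) 0 with hK
  have k0 : 0 ≤ K := le_max_right _ _
  have a0 := abs_nonneg α
  have b0 := abs_nonneg β
  refine ⟨3 + |α| + 2 * |β| + 2 * K, fun j => ?_⟩
  rcases (Poly m (2 * j)).eq_empty_or_nonempty with h | ⟨E, hE⟩
  · simp only [Fn, Z, h, finsum_mem_empty, Real.log_zero, zero_div, abs_zero]
    positivity
  have hj := poly_pos hE
  obtain ⟨c1, c2, c3, c4, c5⟩ := poly_real hE
  push_cast at c1 c3
  rw [abs_le]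
  constructor
  · refine le_trans (by linarith) (Fn_ge hE α β (a := -(|α| + 2 * |β|)) ?_)
    have d1 : -|α| * visits E ≤ α * visits E := mul_le_mul_of_nonneg_right (neg_abs_le _) c4
    have d2 : -|β| * contacts E ≤ β * contacts E := mul_le_mul_of_nonneg_right (neg_abs_le _) c5
    have d3 : (contacts E : ℝ) ≤ 2 * (2 * j) := by linarith
    nlinarith
  · have d1 := Fn_le hE α β
    have d2 : Real.log (2 * j + 1) / (2 * j) ≤ 1 := by
      rw [div_le_one (by linarith)]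
      have := Real.log_le_sub_one_of_pos (show (0 : ℝ) < 2 * j + 1 by linarith)
      linarith
    have := le_abs_self β
    linarith

theorem compact (hm : 2 ≤ m) {L : ℕ} (hL : 0 < L) (hj : L * L + 2 ≤ j) : ∃ E ∈ Poly m (2 * j),
    ((faces (verts E)).card : ℝ) ≤ 6 * (L * L + 2) * (L + 3) ^ 2 + 90 / L * (2 * j) := by
  have h1 := Nat.div_add_mod (j - 1) (L * L + 1)
  have h2 := Nat.mod_lt (j - 1) (show 0 < L * L + 1 by omega)
  have h3 : 1 ≤ (j - 1) / (L * L + 1) := (Nat.one_le_div_iff (by omega)).2 (by omega)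
  generalize (j - 1) / (L * L + 1) = q at *
  generalize (j - 1) % (L * L + 1) = k at *
  obtain ⟨E, hE, -, h⟩ := exists_poly (A := 2 * q) k hL (by omega) (by omega) hm
  have e : k + 2 * q + k + 1 + 2 * q * L * L + 1 = 2 * j := by
    have : j = (L * L + 1) * q + k + 1 := by omega
    rw [this]; ring
  rw [e] at hE h
  refine ⟨E, hE, ?_⟩
  have l1 : (1 : ℝ) ≤ L := by exact_mod_cast hL
  have r1 : ((faces (verts E)).card : ℝ) + 6 * (2 * j) ≤ 6 * ((k + 2 * q + 2) * (L + 3) ^ 2) := by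
    exact_mod_cast h
  have r2 : (k : ℝ) ≤ L * L := by exact_mod_cast Nat.le_of_lt_succ h2
  have r3 : (2 * q : ℝ) * L * L ≤ 2 * j := by exact_mod_cast (show 2 * q * L * L ≤ 2 * j by omega)
  have q0 : (0 : ℝ) ≤ q := Nat.cast_nonneg _
  have r4 : (2 * q : ℝ) * L ≤ 1 / L * (2 * j) := by
    rw [one_div, inv_mul_eq_div, le_div_iff₀ (by linarith)]; exact r3
  have r5 : (k : ℝ) * (L + 3) ^ 2 ≤ L * L * (L + 3) ^ 2 := by gcongr
  have r6 : (q : ℝ) ≤ q * L := by nlinarith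
  have r7 : (90 : ℝ) / L * (2 * j) = 90 * (1 / L * (2 * j)) := by ring
  rw [r7]
  nlinarith

theorem Fn_low (hm : 2 ≤ m) (α : ℝ) {β a : ℝ} (ha : a < 2 * β) :
    ∀ᶠ j in atTop, a < Fn m α β j := by
  set K := (|α| + |β|) / 2 with hK
  have k0 : 0 ≤ K := by positivity
  have hδ : 0 < (2 * β - a) / 2 := by linarith
  obtain ⟨L, hL1, hL⟩ := (((tendsto_const_div_atTop_nhds_zero_nat (K * 90)).eventually
    (gt_mem_nhds hδ)).and (eventually_gt_atTop 0)).exists
  filter_upwards [(tendsto_const_div_atTop_nhds_zero_nat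
    (K * (6 * (L * L + 2) * (L + 3) ^ 2) / 2)).eventually (gt_mem_nhds hδ),
    eventually_ge_atTop (L * L + 2)] with j h1 h2
  obtain ⟨E, hE, h3⟩ := compact hm hL h2
  have hj := poly_pos hE
  obtain ⟨c1, c2, c3, c4, c5⟩ := poly_real hE
  push_cast at c1
  set C : ℝ := 6 * (L * L + 2) * (L + 3) ^ 2
  set S : ℝ := ((faces (verts E)).card : ℝ)
  refine lt_of_lt_of_le (by linarith) (Fn_ge hE α β (a := 2 * β - K * C / 2 / j - K * 90 / L) ?_)
  have d1 : -|α| * visits E ≤ α * visits E := mul_le_mul_of_nonneg_right (neg_abs_le _) c4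
  have d2 : |α| * visits E ≤ |α| * (S / 2) :=
    mul_le_mul_of_nonneg_left (by linarith) (abs_nonneg _)
  have d3 : β * (S / 2) ≤ |β| * (S / 2) :=
    mul_le_mul_of_nonneg_right (le_abs_self _) (by linarith)
  have d4 := mul_le_mul_of_nonneg_left h3 k0
  have d5 : (2 * β - K * C / 2 / j - K * 90 / L) * (2 * j) =
      2 * β * (2 * j) - K * (C + 90 / L * (2 * j)) := by field_simp; ring
  have d6 : K * S = |α| * (S / 2) + |β| * (S / 2) := by rw [hK]; ring
  rw [d5, c1]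
  linarith

theorem Fn_up (hm : 2 ≤ m) {α β a : ℝ} (h : 600 * ((2 * m + 1 : ℕ) : ℝ) ^ 2 + max α 0 ≤ β)
    (ha : 2 * β < a) : ∀ᶠ j in atTop, Fn m α β j < a := by
  have t1 : Tendsto (fun j : ℕ => (2 * j + 1 : ℝ)) atTop atTop :=
    tendsto_atTop_add_const_right _ _ (tendsto_natCast_atTop_atTop.const_mul_atTop two_pos)
  have t2 := (Real.tendsto_pow_log_div_mul_add_atTop 1 (-1) 1 one_ne_zero).comp t1
  filter_upwards [t2.eventually (gt_mem_nhds (show 0 < (a - 2 * β) / 3 by linarith)),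
    eventually_ge_atTop (1 * 1 + 2)] with j h1 h2
  obtain ⟨E, hE, -⟩ := compact hm one_pos h2
  have := Fn_le hE α β
  rw [max_eq_right (by linarith)] at this
  simp only [Function.comp, pow_one, one_mul, add_neg_cancel_right] at h1
  linarith

theorem Fn_open (hm : 2 ≤ m) (α : ℝ) (hj : 3 ≤ j) : -6 * |α| - 5 ≤ Fn m α (-3 * |α| - 3) j := by
  obtain ⟨k, rfl⟩ := Nat.exists_eq_add_of_le' hj
  obtain ⟨E, hE, h, -⟩ := exists_poly (A := 2) (L := 1) k one_pos le_rfl rfl hm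
  rw [show k + 2 + k + 1 + 2 * 1 * 1 + 1 = 2 * (k + 3) by ring] at hE
  refine Fn_ge hE _ _ ?_
  obtain ⟨c1, c2, c3, c4, c5⟩ := poly_real hE
  have r1 : (k : ℝ) + 2 ≤ visits E := by exact_mod_cast h
  have k0 : (0 : ℝ) ≤ k := Nat.cast_nonneg _
  have a0 := abs_nonneg α
  push_cast at c1 c3 ⊢
  have d1 : -|α| * visits E ≤ α * visits E := mul_le_mul_of_nonneg_right (neg_abs_le _) c4
  have d2 : (contacts E : ℝ) ≤ 10 / 3 * (k + 3) := by linarith
  nlinarith

theorem Fn_mono (hE : E ∈ Poly m (2 * j)) (α : ℝ) {β β' : ℝ} (h : β ≤ β') :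
    Fn m α β j ≤ Fn m α β' j ∧ Fn m α β' j ≤ Fn m α β j + 2 * (β' - β) := by
  have hj := poly_pos hE
  have p1 := (Real.exp_pos _).trans_le (Z_ge hE α β)
  have p2 := (Real.exp_pos _).trans_le (Z_ge hE α β')
  have h1 : Z m (2 * j) α β ≤ Z m (2 * j) α β' := by
    rw [Z_eq, Z_eq]
    refine sum_le_sum fun E _ => Real.exp_le_exp.2 ?_
    have := mul_le_mul_of_nonneg_right h (Nat.cast_nonneg (contacts E) : (0 : ℝ) ≤ _)
    linarith
  have h2 : Z m (2 * j) α β' ≤ Z m (2 * j) α β * Real.exp (2 * (β' - β) * (2 * j)) := by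
    rw [Z_eq, Z_eq, sum_mul]
    refine sum_le_sum fun E hE => ?_
    obtain ⟨c1, c2, c3, c4, c5⟩ := poly_real ((Set.Finite.mem_toFinset _).1 hE)
    rw [← Real.exp_add, Real.exp_le_exp]
    push_cast at c1
    have : (β' - β) * contacts E ≤ (β' - β) * (2 * (2 * j)) :=
      mul_le_mul_of_nonneg_left (by linarith) (by linarith)
    linarith
  have h3 := Real.log_le_log p2 h2
  rw [Real.log_mul p1.ne' (Real.exp_pos _).ne', Real.log_exp] at h3
  unfold Fn
  push_cast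
  refine ⟨div_le_div_of_nonneg_right (Real.log_le_log p1 h1) (by linarith), ?_⟩
  rw [div_add' _ _ _ (by linarith)]
  exact div_le_div_of_nonneg_right h3 (by linarith)

theorem transition (hm : 2 ≤ m) (α : ℝ) : ∃ F : ℝ → ℝ,
    (∀ β, limsup (fun j => (Fn m α β j : EReal)) atTop = F β) ∧
    ∃ βc : ℝ, (∀ β < βc, 2 * β < F β) ∧
      (∀ β, βc ≤ β → Tendsto (Fn m α β) atTop (𝓝 (2 * β))) ∧ ¬ AnalyticAt ℝ F βc := by
  choose M hM using Fn_bdd m α
  have b1 : ∀ β, IsBoundedUnder (· ≤ ·) atTop (Fn m α β) := fun β =>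
    isBoundedUnder_of ⟨M β, fun j => (abs_le.1 (hM β j)).2⟩
  have b2 : ∀ β, IsBoundedUnder (· ≥ ·) atTop (Fn m α β) := fun β =>
    isBoundedUnder_of ⟨-M β, fun j => (abs_le.1 (hM β j)).1⟩
  set F := fun β => limsup (Fn m α β) atTop with hF
  have hcmp : ∀ β β' c, (∀ᶠ j in atTop, Fn m α β j ≤ Fn m α β' j + c) → F β ≤ F β' + c := by
    intro β β' c h
    refine le_of_forall_pos_le_add fun ε hε => limsup_le_of_le (b2 β).isCoboundedUnder_le ?_
    filter_upwards [h, eventually_lt_of_limsup_lt (show F β' < F β' + ε by linarith) (b1 β')]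
      with j h1 h2
    linarith
  have hne : ∀ᶠ j in atTop, ∃ E, E ∈ Poly m (2 * j) :=
    (eventually_ge_atTop (1 * 1 + 2)).mono fun j hj => (compact hm one_pos hj).imp fun _ h => h.1
  have m1 : ∀ β β', β ≤ β' → F β ≤ F β' + 0 := fun β β' h =>
    hcmp _ _ _ (hne.mono fun j ⟨E, hE⟩ => by rw [add_zero]; exact (Fn_mono hE α h).1)
  have m2 : ∀ β β', β ≤ β' → F β' ≤ F β + 2 * (β' - β) := fun β β' h =>
    hcmp _ _ _ (hne.mono fun j ⟨E, hE⟩ => (Fn_mono hE α h).2)
  set T := {β | F β ≤ 2 * β} with hT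
  have t1 : ∀ β ∈ T, ∀ β', β ≤ β' → β' ∈ T := fun β h β' h' => by
    have := m2 β β' h'
    simp only [hT, Set.mem_ofPred_eq] at h ⊢
    linarith
  have t2 : T.Nonempty := ⟨_, le_of_forall_gt_imp_ge_of_dense fun a ha =>
    limsup_le_of_le (b2 _).isCoboundedUnder_le ((Fn_up hm le_rfl ha).mono fun _ => le_of_lt)⟩
  have t3 : BddBelow T := by
    refine ⟨-3 * |α| - 3, fun β h => le_of_not_ge fun h' => ?_⟩
    have h1 : F (-3 * |α| - 3) ≤ _ := t1 β h _ h'
    have h2 : -6 * |α| - 5 ≤ F (-3 * |α| - 3) := le_limsup_of_frequently_le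
      ((eventually_ge_atTop 3).mono fun j hj => Fn_open hm α hj).frequently (b1 _)
    linarith
  have t4 : sInf T ∈ T := by
    have : F (sInf T) / 2 ≤ sInf T := le_csInf t2 fun β h => by
      have h1 := m1 _ _ (csInf_le t3 h)
      have h2 : F β ≤ 2 * β := h
      linarith
    simp only [hT, Set.mem_ofPred_eq] at this ⊢
    linarith
  have t5 : ∀ β < sInf T, 2 * β < F β := fun β h => lt_of_not_ge fun h' =>
    absurd (csInf_le t3 h') (not_le.2 h)
  have t6 : ∀ β, sInf T ≤ β → Tendsto (Fn m α β) atTop (𝓝 (2 * β)) := fun β h =>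
    tendsto_order.2 ⟨fun a ha => Fn_low hm α ha, fun a ha =>
      eventually_lt_of_limsup_lt (lt_of_le_of_lt (t1 _ t4 _ h) ha) (b1 _)⟩
  refine ⟨F, fun β => (EReal.coe_strictMono.monotone.map_limsup_of_continuousAt _
    continuous_coe_real_ereal.continuousAt (b1 β) (b2 β).isCoboundedUnder_le).symm,
    sInf T, t5, t6, fun h => ?_⟩
  have h1 : ∀ᶠ β in 𝓝[>] sInf T, F β = 2 * β :=
    eventually_mem_nhdsWithin.mono fun β hβ => (t6 β (le_of_lt hβ)).limsup_eq
  have h2 := (h.frequently_eq_iff_eventually_eq (g := fun β => 2 * β) (by fun_prop)).1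
    (h1.frequently.filter_mono (nhdsGT_le_nhdsNE _))
  obtain ⟨β, h3, h4⟩ := ((h2.filter_mono (nhdsWithin_le_nhds (s := Set.Iio (sInf T)))).and
    eventually_mem_nhdsWithin).exists
  exact (t5 β h4).ne' h3

end Pool.Agent.MP_7b45f6_mp.H11
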