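import Pool.Agent.MP_7b45f6_mp.H11.Kernel

set_option autoImplicit false

namespace Pool.Agent.MP_7b45f6_mp.H11

open Finset Classical

variable {n : ℕ} {w : ℕ → P}

theorem succ_mod {i n : ℕ} (h : i < n) : ((i + 1) % n = 0 ∧ i + 1 = n) ∨ ((i + 1) % n = i + 1 ∧ i + 1 < n) := by
  rcases (Nat.succ_le_of_lt h).lt_or_eq with h1 | h1
  · exact Or.inr ⟨Nat.mod_eq_of_lt h1, h1⟩
  · exact Or.inl ⟨by rw [← h1]; exact Nat.mod_self _, h1⟩

theorem IsTour.edge_inj (h : IsTour n w) {i j : ℕ} (hi : i < n) (hj : j < n)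
    (e : s(w i, w ((i + 1) % n)) = s(w j, w ((j + 1) % n))) : i = j := by
  obtain ⟨h3, hinj, -⟩ := h
  rcases Sym2.eq_iff.1 e with ⟨a, -⟩ | ⟨a, b⟩
  · exact hinj _ hi _ hj a
  · have a' := hinj _ hi _ (Nat.mod_lt _ (by omega)) a
    have b' := hinj _ (Nat.mod_lt _ (by omega)) _ hj b
    rcases succ_mod hi with x | x <;> rcases succ_mod hj with y | y <;> omega

theorem IsTour.card_edges (h : IsTour n w) : (edges n w).card = n := by
  rw [edges, card_image_of_injOn, card_range]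
  intro i hi j hj e
  exact h.edge_inj (mem_range.1 hi) (mem_range.1 hj) e

theorem mem_edges {e : Sym2 P} : e ∈ edges n w ↔ ∃ i < n, s(w i, w ((i + 1) % n)) = e := by
  simp [edges]

theorem verts_edges (h : 1 ≤ n) : verts (edges n w) = Vs (n - 1) w := by
  ext p
  simp only [verts, mem_biUnion, Sym2.mem_toFinset, mem_Vs, mem_edges]
  constructor
  · rintro ⟨e, ⟨i, hi, rfl⟩, hp⟩
    rcases Sym2.mem_iff.1 hp with rfl | rfl
    · exact ⟨i, by omega, rfl⟩
    · exact ⟨_, by have := Nat.mod_lt (i + 1) h; omega, rfl⟩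
  · rintro ⟨i, hi, rfl⟩
    exact ⟨_, ⟨i, by omega, rfl⟩, Sym2.mem_mk_left _ _⟩

theorem IsTour.card_Vs (h : IsTour n w) : (Vs (n - 1) w).card = n := by
  have := h.1
  rw [Vs, card_image_of_injOn, card_range]
  · omega
  · intro i hi j hj e
    exact h.2.1 i (by have := mem_range.1 hi; omega) j (by have := mem_range.1 hj; omega) e

theorem IsTour.energy (h : IsTour n w) :
    2 * contacts (edges n w) + (faces (Vs (n - 1) w)).card = 4 * n := by
  have h3 := h.1
  set V := Vs (n - 1) w with hV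
  set AP := V.sym2.filter fun e => ∃ p q, e = s(p, q) ∧ Adj p q with hAP
  have hsub : edges n w ⊆ AP := by
    intro e he
    obtain ⟨i, hi, rfl⟩ := mem_edges.1 he
    refine mem_filter.2 ⟨mk_mem_sym2_iff.2 ⟨w_mem (by omega), w_mem ?_⟩, _, _, rfl, h.2.2 i hi⟩
    have := Nat.mod_lt (i + 1) (show 0 < n by omega); omega
  have h1 : contacts (edges n w) + n = AP.card := by
    have := card_sdiff_add_card_eq_card hsub
    rw [h.card_edges] at this
    rw [← this, contacts, verts_edges (by omega)]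
    congr 2
    ext e
    simp only [hAP, mem_filter, mem_sdiff]
    tauto
  have h2 : ((V ×ˢ dirs).filter fun φ => φ.1 + φ.2 ∈ V).card = AP.card * 2 := by
    rw [card_eq_sum_card_fiberwise (f := fun φ : P × P => s(φ.1, φ.1 + φ.2)) (t := AP)]
    · refine sum_const_nat fun e he => ?_
      obtain ⟨he, p, q, rfl, hpq⟩ := mem_filter.1 he
      obtain ⟨hp, hq⟩ := mk_mem_sym2_iff.1 he
      have hd := (adj_iff p q).1 hpq
      have hne : p ≠ q := fun e => zero_dirs (by rwa [e, sub_self] at hd)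
      rw [card_eq_two]
      refine ⟨(p, q - p), (q, p - q), fun e => hne (congrArg Prod.fst e), ?_⟩
      ext ⟨a, b⟩
      simp only [mem_filter, mem_product, mem_insert, mem_singleton, Prod.mk.injEq, Sym2.eq_iff]
      constructor
      · rintro ⟨-, ⟨rfl, rfl⟩ | ⟨rfl, rfl⟩⟩ <;> simp
      · rintro (⟨rfl, rfl⟩ | ⟨rfl, rfl⟩)
        · simp [hp, hq, hd]
        · have := neg_dirs _ hd
          rw [neg_sub] at this
          simp [hp, hq, this]
    · intro φ hφ
      obtain ⟨a, b⟩ := mem_filter.1 (mem_coe.1 hφ)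
      obtain ⟨a1, a2⟩ := mem_product.1 a
      exact mem_coe.2 (mem_filter.2 ⟨mk_mem_sym2_iff.2 ⟨a1, b⟩, _, _, rfl,
        (adj_iff _ _).2 (by simpa using a2)⟩)
  have h4 := card_filter_add_card_filter_not (s := V ×ˢ dirs) fun φ => φ.1 + φ.2 ∈ V
  rw [card_product, card_dirs, hV, h.card_Vs, ← hV] at h4
  change _ + (faces V).card = _ at h4
  omega

theorem visits_le (V : Finset P) :
    2 * (V.filter fun p => p.2.2 = 0).card ≤ (faces V).card := by
  have : ((V.filter fun p => p.2.2 = 0) ×ˢ (univ : Finset Bool)).card ≤ (faces V).card := by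
    refine card_le_of_rel _ _ (fun x φ => φ.1.1 = x.1.1 ∧ φ.1.2.1 = x.1.2.1 ∧
      φ.2 = if x.2 then (0, 0, 1) else (0, 0, -1)) ?_ ?_
    · rintro ⟨p, b⟩ hx
      have hp := (mem_filter.1 (mem_product.1 hx).1).1
      obtain ⟨k, hk⟩ := exists_face V hp (f := if b then (0, 0, 1) else (0, 0, -1))
        (by cases b <;> decide)
      refine ⟨_, hk, ?_, ?_, rfl⟩ <;> cases b <;> simp [nsmul_mk]
    · rintro ⟨⟨a, b, c⟩, x⟩ hx ⟨⟨a', b', c'⟩, y⟩ hy φ ⟨a1, a2, a3⟩ ⟨b1, b2, b3⟩
      have c1 := (mem_filter.1 (mem_product.1 hx).1).2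
      have c2 := (mem_filter.1 (mem_product.1 hy).1).2
      have c3 := a3.symm.trans b3
      simp only at *
      have : x = y := by cases x <;> cases y <;> simp at c3 ⊢
      simp only [Prod.mk.injEq]
      refine ⟨⟨?_, ?_, ?_⟩, this⟩ <;> omega
  rw [card_product, card_univ, Fintype.card_bool] at this
  omega

theorem IsTour.walk (h : IsTour n w) (hp : Prudent n w) : Walk (n - 1) w := by
  have := h.1
  refine ⟨fun i hi j hj => h.2.1 i (by omega) j (by omega), fun t t1 t2 => ?_, fun t t1 j hj k => ?_⟩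
  · have := (adj_iff _ _).1 (h.2.2 (t - 1) (by omega))
    rwa [Nat.sub_add_cancel t1, Nat.mod_eq_of_lt (by omega)] at this
  · have := hp (t - 1) (by omega) j (by omega) k
    rwa [Nat.sub_add_cancel (by omega)] at this

theorem IsTour.starts (h : IsTour n w) (hp : Prudent n w) {m : ℕ}
    (hm : ∀ c, crossings (edges n w) c ≤ m) (c : ℤ) :
    ((St (n - 1) w).filter fun t => (w t).1 = c).card ≤ 2 * m + 1 := by
  have h3 := h.1
  have a1 := hm c
  have a2 := hm (c - 1)
  unfold crossings at a1 a2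
  set A := (edges n w).filter fun e => ∃ p q, e = s(p, q) ∧ p.1 = c ∧ q.1 = c + 1
  set B := (edges n w).filter fun e => ∃ p q, e = s(p, q) ∧ p.1 = c - 1 ∧ q.1 = c - 1 + 1
  have h1 : (((St (n - 1) w).filter fun t => (w t).1 = c).erase 0).card ≤ (A ∪ B).card := by
    have hmod : ∀ t, t ≠ 0 → t ≤ n - 1 → (t - 1 + 1) % n = t := fun t t1 t2 => by
      rw [Nat.sub_add_cancel (by omega), Nat.mod_eq_of_lt (by omega)]
    refine card_le_card_of_injOn (fun t => s(w (t - 1), w ((t - 1 + 1) % n))) ?_ ?_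
    · intro t ht
      obtain ⟨t0, ht⟩ := mem_erase.1 (mem_coe.1 ht)
      obtain ⟨ht, hc⟩ := mem_filter.1 ht
      obtain ⟨t1, t2⟩ := mem_St.1 ht
      have hE : s(w (t - 1), w ((t - 1 + 1) % n)) ∈ edges n w := mem_edges.2 ⟨_, by omega, rfl⟩
      have hx := congrArg Prod.fst (w_pred w t)
      rw [Prod.fst_sub] at hx
      refine mem_coe.2 (mem_union.2 ?_)
      rcases x_cases _ ((h.walk hp).step t (by omega) t1) t2 with e | e <;> rw [e] at hx
      · exact Or.inr (mem_filter.2 ⟨hE, _, _, rfl, by omega, by rw [hmod t t0 t1]; omega⟩)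
      · exact Or.inl (mem_filter.2 ⟨hE, _, _, Sym2.eq_swap, by rw [hmod t t0 t1]; omega,
          by simp only at hx; omega⟩)
    · intro s hs t ht e
      obtain ⟨s0, hs⟩ := mem_erase.1 (mem_coe.1 hs)
      obtain ⟨t0, ht⟩ := mem_erase.1 (mem_coe.1 ht)
      have s1 := (mem_St.1 (mem_filter.1 hs).1).1
      have t1 := (mem_St.1 (mem_filter.1 ht).1).1
      have := h.edge_inj (by omega) (by omega) e
      omega
  have h2 := card_union_le A B
  have h4 := pred_card_le_card_erase (s := (St (n - 1) w).filter fun t => (w t).1 = c) (a := 0)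
  omega

theorem Walk.span {N : ℕ} (hw : Walk N w) {f : P} (hf : f ∈ dirs) {i j : ℕ} (hi : i ≤ N)
    (hj : j ≤ N) : dot f (w i) ≤ dot f (w j) + N := by
  have hd : ∀ f ∈ dirs, ∀ e ∈ dirs, dot f e ≤ 1 ∧ -1 ≤ dot f e := by decide
  have key : ∀ a k, a + k ≤ N → dot f (w (a + k)) ≤ dot f (w a) + k ∧
      dot f (w a) ≤ dot f (w (a + k)) + k := by
    intro a k
    induction k with
    | zero => simp
    | succ k ih =>
      intro h
      have h1 := ih (by omega)
      have h2 := hd f hf _ (hw.step (a + k + 1) (by omega) h)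
      rw [← add_assoc, w_succ w (a + k), dot_add]
      push_cast
      omega
  rcases le_total i j with h | h <;> obtain ⟨k, rfl⟩ := Nat.exists_eq_add_of_le h
  · have := (key i k hj).2; omega
  · have := (key j k hi).1; omega

/-- A box that contains every normalised polygon. -/
noncomputable def bx (n : ℕ) : Finset P := Icc (0 : ℤ) n ×ˢ Icc (0 : ℤ) n ×ˢ Icc (0 : ℤ) n

theorem card_bx (n : ℕ) : (bx n).card = (n + 1) ^ 3 := by
  simp [bx, card_product]; ring

theorem poly_box {m : ℕ} {E : Finset (Sym2 P)} (hE : E ∈ Poly m n) : verts E ⊆ bx n := by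
  obtain ⟨⟨w, h1, h2, rfl⟩, h3, ⟨a, a1, a2⟩, ⟨b, b1, b2⟩, h4, -⟩ := hE
  obtain ⟨c, hc⟩ := card_pos.1 (lt_of_lt_of_le (by norm_num) h4)
  obtain ⟨c1, c2⟩ := mem_filter.1 hc
  intro p hp
  obtain ⟨p1, p2, p3⟩ := h3 p hp
  have := h1.1
  rw [verts_edges (by omega)] at a1 b1 c1 hp
  obtain ⟨i, hi, rfl⟩ := mem_Vs.1 hp
  obtain ⟨x, hx, rfl⟩ := mem_Vs.1 a1
  obtain ⟨y, hy, rfl⟩ := mem_Vs.1 b1
  obtain ⟨z, hz, rfl⟩ := mem_Vs.1 c1
  have e1 := (h1.walk h2).span (f := (1, 0, 0)) (by decide) hi hx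
  have e2 := (h1.walk h2).span (f := (0, 1, 0)) (by decide) hi hy
  have e3 := (h1.walk h2).span (f := (0, 0, 1)) (by decide) hi hz
  simp only [dot] at e1 e2 e3
  simp only [bx, mem_product, mem_Icc]
  omega

theorem poly_finite (m n : ℕ) : (Poly m n).Finite := by
  refine ((bx n).sym2.powerset.finite_toSet).subset fun E hE => mem_coe.2 (mem_powerset.2 ?_)
  intro e he
  rw [mem_sym2_iff]
  intro p hp
  exact poly_box hE (mem_biUnion.2 ⟨e, he, Sym2.mem_toFinset.2 hp⟩)

theorem Z_eq (m n : ℕ) (α β : ℝ) : Z m n α β =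
    ∑ E ∈ (poly_finite m n).toFinset, Real.exp (α * visits E + β * contacts E) :=
  finsum_mem_eq_finite_toFinset_sum _ _

theorem sum_faces (m n : ℕ) : ∑ E ∈ (poly_finite m n).toFinset,
    Real.exp (-(300 * ((2 * m + 1 : ℕ) : ℝ) ^ 2 * (faces (verts E)).card)) ≤ (n + 1) ^ 3 := by
  set S := (poly_finite m n).toFinset with hS
  have hmem : ∀ E ∈ S, E ∈ Poly m n := fun E hE => (Set.Finite.mem_toFinset _).1 hE
  have : ∀ E ∈ S, ∃ w, IsTour n w ∧ Prudent n w ∧ E = edges n w := fun E hE => (hmem E hE).1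
  choose! T hT using this
  have h1 : ∀ E ∈ S, Real.exp (-(300 * ((2 * m + 1 : ℕ) : ℝ) ^ 2 * (faces (verts E)).card)) ≤
      ∏ t ∈ range (n - 1), ker (T E) t (T E (t + 1)) := by
    intro E hE
    obtain ⟨a1, a2, a3⟩ := hT E hE
    have := (a1.walk a2).cost (M := 2 * m + 1) (by omega)
      (a1.starts a2 (a3 ▸ (hmem E hE).2.2.2.2.2))
    rwa [← verts_edges (by have := a1.1; omega), ← a3] at this
  have hinj : ∀ E ∈ S, ∀ E' ∈ S, (∀ t ≤ n - 1, T E t = T E' t) → E = E' := by
    intro E hE E' hE' h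
    have := (hT E hE).1.1
    rw [(hT E hE).2.2, (hT E' hE').2.2]
    refine image_congr fun i hi => ?_
    have := mem_range.1 (mem_coe.1 hi)
    have := Nat.mod_lt (i + 1) (show 0 < n by omega)
    rw [h i (by omega), h _ (by omega)]
  refine (sum_le_sum h1).trans ?_
  rw [← sum_fiberwise_of_maps_to (g := fun E => T E 0) (t := bx n)]
  · refine (sum_le_card_nsmul _ _ 1 fun a _ => ?_).trans (by rw [card_bx]; simp)
    rw [← sum_image (s := S.filter fun E => T E 0 = a) (g := T)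
      (f := fun w => ∏ t ∈ range (n - 1), ker w t (w (t + 1)))]
    · refine sum_prod_ker a _ _ ?_ ?_ ?_
      · intro w hw
        obtain ⟨E, hE, rfl⟩ := mem_image.1 hw
        exact (mem_filter.1 hE).2
      · intro w hw t ht
        obtain ⟨E, hE, rfl⟩ := mem_image.1 hw
        obtain ⟨a1, a2, -⟩ := hT E (mem_filter.1 hE).1
        exact pd_succ (T E) t ▸ (a1.walk a2).step (t + 1) (by omega) ht
      · intro u hu v hv h
        obtain ⟨E, hE, rfl⟩ := mem_image.1 hu
        obtain ⟨E', hE', rfl⟩ := mem_image.1 hv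
        rw [hinj E (mem_filter.1 hE).1 E' (mem_filter.1 hE').1 h]
    · intro E hE E' hE' h
      exact hinj E (mem_filter.1 (mem_coe.1 hE)).1 E' (mem_filter.1 (mem_coe.1 hE')).1
        fun t _ => by rw [h]
  · intro E hE
    refine poly_box (hmem E hE) ?_
    have := (hT E hE).1.1
    rw [(hT E hE).2.2, verts_edges (by omega), ← (hT E hE).2.2]
    exact w_mem (Nat.zero_le _)

theorem poly_facts {m : ℕ} {E : Finset (Sym2 P)} (hE : E ∈ Poly m n) :
    2 * contacts E + (faces (verts E)).card = 4 * n ∧ 2 * visits E ≤ (faces (verts E)).card ∧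
      (verts E).card = n := by
  obtain ⟨⟨w, h1, -, rfl⟩, -⟩ := hE
  refine ⟨?_, visits_le _, ?_⟩ <;>
    rw [verts_edges (by have := h1.1; omega)]
  · exact h1.energy
  · exact h1.card_Vs

/-- The upper bound on the partition function. -/
theorem Z_le (m n : ℕ) (α β : ℝ) : Z m n α β ≤ (n + 1) ^ 3 * Real.exp (2 * β * n +
    2 * n * max (600 * ((2 * m + 1 : ℕ) : ℝ) ^ 2 + max α 0 - β) 0) := by
  rw [Z_eq]
  refine le_trans ?_ (mul_le_mul_of_nonneg_right (sum_faces m n) (Real.exp_pos _).le)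
  rw [sum_mul]
  refine sum_le_sum fun E hE => ?_
  obtain ⟨a1, a2, -⟩ := poly_facts ((Set.Finite.mem_toFinset _).1 hE)
  rw [← Real.exp_add, Real.exp_le_exp]
  set C : ℝ := ((2 * m + 1 : ℕ) : ℝ) ^ 2
  have b1 : (2 * contacts E + (faces (verts E)).card : ℝ) = 4 * n := by exact_mod_cast a1
  have b2 : (2 * visits E : ℝ) ≤ (faces (verts E)).card := by exact_mod_cast a2
  have b3 : (0 : ℝ) ≤ visits E := Nat.cast_nonneg _
  have b4 : (0 : ℝ) ≤ contacts E := Nat.cast_nonneg _
  have c1 := le_max_left α 0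
  have c2 := le_max_right α 0
  have c3 := le_max_left (600 * C + max α 0 - β) 0
  have c4 := le_max_right (600 * C + max α 0 - β) 0
  set S : ℝ := ((faces (verts E)).card : ℝ)
  have d1 : α * visits E ≤ max α 0 * (S / 2) := by nlinarith
  have d2 : (600 * C + max α 0 - β) * (S / 2) ≤ max (600 * C + max α 0 - β) 0 * (2 * n) := by
    nlinarith
  have d3 : (contacts E : ℝ) = 2 * n - S / 2 := by linarith
  rw [d3]
  nlinarith

end Pool.Agent.MP_7b45f6_mp.H11
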