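import Pool.Agent.MP_7b45f6_mp.H11.Basic

set_option autoImplicit false

namespace Pool.Agent.MP_7b45f6_mp.H11

open Finset Classical

/-- The step that arrives at time `t` (zero for `t = 0`). -/
def pd (w : ℕ → P) (t : ℕ) : P := w t - w (t - 1)

theorem pd_zero (w : ℕ → P) : pd w 0 = 0 := by simp [pd]
theorem pd_succ (w : ℕ → P) (t : ℕ) : pd w (t + 1) = w (t + 1) - w t := by simp [pd]
theorem w_succ (w : ℕ → P) (t : ℕ) : w (t + 1) = w t + pd w (t + 1) := by simp [pd]
theorem w_pred (w : ℕ → P) (t : ℕ) : w (t - 1) = w t - pd w t := by simp [pd]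

structure Walk (N : ℕ) (w : ℕ → P) : Prop where
  inj : ∀ i ≤ N, ∀ j ≤ N, w i = w j → i = j
  step : ∀ t, 1 ≤ t → t ≤ N → pd w t ∈ dirs
  pru : ∀ t ≤ N, ∀ j < t, ∀ k : ℕ, w j ≠ w t + k • pd w t

theorem pos_of_D4 {w : ℕ → P} {t : ℕ} (h : pd w t ∈ D4) : 1 ≤ t := by
  rcases Nat.eq_zero_or_pos t with rfl | h0
  · rw [pd_zero] at h; exact absurd h zero_D4
  · exact h0

/-- Start of the straight run that contains the step arriving at time `u`. -/
noncomputable def rs (w : ℕ → P) (u : ℕ) : ℕ := Nat.findGreatest (fun s => pd w s ≠ pd w u) u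

theorem rs_le (w : ℕ → P) (u : ℕ) : rs w u ≤ u := Nat.findGreatest_le u

theorem rs_ne {w : ℕ → P} {u : ℕ} (h : pd w u ∈ D4) : pd w (rs w u) ≠ pd w u := by
  have h0 : pd w 0 ≠ pd w u := by
    rw [pd_zero]; intro h1; exact zero_D4 (h1 ▸ h)
  exact Nat.findGreatest_spec (P := fun s => pd w s ≠ pd w u) (Nat.zero_le u) h0

theorem rs_lt {w : ℕ → P} {u : ℕ} (h : pd w u ∈ D4) : rs w u < u := by
  rcases (rs_le w u).lt_or_eq with h1 | h1
  · exact h1
  · exact absurd (by rw [h1]) (rs_ne h)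

theorem pd_run {w : ℕ → P} {u j : ℕ} (h1 : rs w u < j) (h2 : j ≤ u) : pd w j = pd w u := by
  by_contra h
  exact Nat.findGreatest_is_greatest (P := fun s => pd w s ≠ pd w u) h1 h2 h

theorem w_run {w : ℕ → P} {u j : ℕ} (h1 : rs w u ≤ j) (h2 : j ≤ u) :
    w j = w (rs w u) + (j - rs w u) • pd w u := by
  induction j, h1 using Nat.le_induction with
  | base => simp
  | succ j hj ih =>
    rw [w_succ w j, ih (by omega), pd_run (by omega) h2, Nat.succ_sub hj, succ_nsmul, add_assoc]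

theorem rs_eq {w : ℕ → P} {u s : ℕ} (hs : s ≤ u) (h1 : pd w s ≠ pd w u)
    (h2 : ∀ j, s < j → j ≤ u → pd w j = pd w u) : rs w u = s := by
  unfold rs
  rw [Nat.findGreatest_eq_iff]
  exact ⟨hs, fun _ => h1, fun j hj hj' h => h (h2 j hj hj')⟩

/-- Start of the planar piece that contains time `u`. -/
noncomputable def ps (w : ℕ → P) (u : ℕ) : ℕ := Nat.findGreatest (fun s => pd w s ∉ D4) u

theorem ps_le (w : ℕ → P) (u : ℕ) : ps w u ≤ u := Nat.findGreatest_le u

theorem ps_spec (w : ℕ → P) (u : ℕ) : pd w (ps w u) ∉ D4 :=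
  Nat.findGreatest_spec (P := fun s => pd w s ∉ D4) (Nat.zero_le u) (by rw [pd_zero]; exact zero_D4)

theorem pd_piece {w : ℕ → P} {u j : ℕ} (h1 : ps w u < j) (h2 : j ≤ u) : pd w j ∈ D4 := by
  by_contra h
  exact Nat.findGreatest_is_greatest (P := fun s => pd w s ∉ D4) h1 h2 h

theorem ps_eq {w : ℕ → P} {a b : ℕ} (hab : a ≤ b) (h : ∀ j, a < j → j ≤ b → pd w j ∈ D4) :
    ps w b = ps w a := by
  unfold ps
  rw [Nat.findGreatest_eq_iff]
  refine ⟨(ps_le w a).trans hab, fun _ => ps_spec w a, fun j hj hj' h' => h' ?_⟩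
  by_cases hja : j ≤ a
  · exact pd_piece hj hja
  · exact h j (by omega) hj'

theorem fst_piece {w : ℕ → P} {a b : ℕ} (hab : a ≤ b) (h : ∀ j, a < j → j ≤ b → pd w j ∈ D4) :
    (w b).1 = (w a).1 := by
  induction b, hab using Nat.le_induction with
  | base => rfl
  | succ j hj ih =>
    rw [w_succ w j, Prod.fst_add, ih (fun i h1 h2 => h i h1 (by omega)),
      D4_fst _ (h (j + 1) (by omega) le_rfl), add_zero]

theorem fst_ps (w : ℕ → P) (u : ℕ) : (w u).1 = (w (ps w u)).1 :=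
  fst_piece (ps_le w u) fun _ h1 h2 => pd_piece h1 h2

variable {N : ℕ} {w : ℕ → P}

/-- A run that does not start a piece is entered from a perpendicular direction. -/
theorem Walk.perp (hw : Walk N w) {u : ℕ} (hu : u ≤ N) (he : pd w u ∈ D4)
    (hg : pd w (rs w u) ∈ D4) : dot (pd w u) (pd w (rs w u)) = 0 := by
  refine perp_of _ he _ hg (rs_ne he) ?_
  intro h
  have h1 := pos_of_D4 hg
  have h2 := rs_lt he
  have h3 : w (rs w u + 1) = w (rs w u - 1) := by
    rw [w_succ w (rs w u), pd_run (u := u) (by omega) (by omega), w_pred w (rs w u), h,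
      sub_neg_eq_add]
  have := hw.inj _ (by omega) _ (by omega) h3
  omega

/-- The open quadrant cut out by the two empty rays at the start of a run. -/
def Quad (w : ℕ → P) (s : ℕ) (e g : P) (p : P) : Prop :=
  p.1 = (w s).1 ∧ dot e (w s) < dot e p ∧ dot g (w s) < dot g p

theorem Walk.quad_step (hw : Walk N w) {s : ℕ} (hs : s + 1 ≤ N) (he : pd w (s + 1) ∈ D4)
    (hg : pd w s ∈ D4) (h0 : dot (pd w (s + 1)) (pd w s) = 0) {p h : P} {b : ℕ} (hb : b < s)
    (hh : h ∈ D4) (hpb : w b = p + h) (hp : Quad w s (pd w (s + 1)) (pd w s) p) :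
    Quad w s (pd w (s + 1)) (pd w s) (w b) := by
  set e := pd w (s + 1) with hedef
  set g := pd w s with hgdef
  obtain ⟨q1, q2, q3⟩ := hp
  have ee := dot_self e (D4_sub e he)
  have gg := dot_self g (D4_sub g hg)
  have h0' : dot g e = 0 := by rw [dot_comm]; exact h0
  have f1 : (w b).1 = (w s).1 := by rw [hpb, Prod.fst_add, D4_fst h hh, add_zero, q1]
  have de : dot e (w b) = dot e p + dot e h := by rw [hpb, dot_add]
  have dg : dot g (w b) = dot g p + dot g h := by rw [hpb, dot_add]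
  have hcases : (dot e h = 1 ∧ dot g h = 0) ∨ (dot e h = -1 ∧ dot g h = 0) ∨
      (dot e h = 0 ∧ dot g h = 1) ∨ (dot e h = 0 ∧ dot g h = -1) := by
    rcases D4_perp e he g hg h0 h hh with rfl | rfl | rfl | rfl
    · exact Or.inl ⟨ee, h0'⟩
    · right; left; rw [dot_neg, dot_neg, ee, h0']; simp
    · exact Or.inr (Or.inr (Or.inl ⟨h0, gg⟩))
    · right; right; right; rw [dot_neg, dot_neg, gg, h0]; simp
  refine ⟨f1, ?_, ?_⟩
  · by_contra hc
    have h2 : dot e (w b) = dot e (w s) := by omega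
    obtain ⟨k, hk, -⟩ := plane_eq he hg h0 f1 h2 (by omega)
    exact hw.pru s (by omega) b hb k hk
  · by_contra hc
    have h2 : dot g (w b) = dot g (w s) := by omega
    obtain ⟨k, hk, hk'⟩ := plane_eq hg he h0' f1 h2 (by omega)
    obtain ⟨k, rfl⟩ : ∃ k', k = k' + 1 := ⟨k - 1, by omega⟩
    refine hw.pru (s + 1) hs b (by omega) k ?_
    rw [hk, w_succ w s, succ_nsmul', add_assoc]

theorem Walk.quad_piece (hw : Walk N w) {s : ℕ} (hs : s + 1 ≤ N) (he : pd w (s + 1) ∈ D4)
    (hg : pd w s ∈ D4) (h0 : dot (pd w (s + 1)) (pd w s) = 0) {a b : ℕ} (ha : a < s) (hb : b < s)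
    (hab : ps w a = ps w b) (hp : Quad w s (pd w (s + 1)) (pd w s) (w a)) :
    Quad w s (pd w (s + 1)) (pd w s) (w b) := by
  have key : ∀ c d : ℕ, c ≤ d → d < s → (∀ j, c < j → j ≤ d → pd w j ∈ D4) →
      (Quad w s (pd w (s + 1)) (pd w s) (w c) ↔ Quad w s (pd w (s + 1)) (pd w s) (w d)) := by
    intro c d hcd
    induction d, hcd using Nat.le_induction with
    | base => intros; rfl
    | succ j hj ih =>
      intro h1 h2
      rw [ih (by omega) (fun i i1 i2 => h2 i i1 (by omega))]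
      have hD := h2 (j + 1) (by omega) le_rfl
      constructor
      · exact hw.quad_step hs he hg h0 h1 hD (w_succ w j)
      · refine hw.quad_step hs he hg h0 (by omega) (neg_D4 _ hD) ?_
        rw [w_succ w j]; simp
  have h1 := key (ps w a) a (ps_le w a) ha fun _ i1 i2 => pd_piece i1 i2
  have h2 := key (ps w b) b (ps_le w b) hb fun _ i1 i2 => pd_piece i1 i2
  rw [← h2, ← hab, h1]
  exact hp

end Pool.Agent.MP_7b45f6_mp.H11
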